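import Mathlib

/-!
Structures with binary functions and binary relations; good pairs, trees of nodes, the order.
-/

set_option maxHeartbeats 400000

namespace Pool.Agent.Lib.MP_ccf8bc_lc.NM

open Cardinal

universe u

/-- Function symbols (all binary; unary ones are read on the diagonal). -/
inductive FS (I : Type u) : Type u
  | u (i : I) | nor | ap | d | w | l (k : ℕ) | en (b : Bool)

/-- Relation symbols (all binary; unary ones are read on the diagonal). -/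
inductive RS (I : Type u) : Type u
  | A | B | Sp | Col | T | S | D | E (s : List I)

/-- A structure. -/
structure Dat (I M : Type u) where
  F : FS I → M → M → M
  R : RS I → M → M → Prop

/-- Embeddings. -/
structure Emb {I M N : Type u} (X : Dat I M) (Y : Dat I N) (g : M → N) : Prop where
  inj : Function.Injective g
  F : ∀ s x y, Y.F s (g x) (g y) = g (X.F s x y)
  R : ∀ s x y, Y.R s (g x) (g y) ↔ X.R s x y

namespace Dat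

variable {I M N P : Type u} (X : Dat I M)

/-- `e` separates the nodes `σ`, `ρ`. -/
def Sep (e σ ρ : M) : Prop := ¬ (X.R .S e σ ↔ X.R .S e ρ)

/-- `b` obeys the ultrafilter equations at `y`. -/
def Hom (b y : M) : Prop :=
  (X.R .A y y → (X.R (.E []) b (X.F .nor y y) ↔ ∀ i, ¬ X.R (.E []) b (X.F (.u i) y y))) ∧
  (X.R .B y y → (X.R (.E []) b y ↔ b = y))

/-- The conditions of the unflagged class on a pair. -/
def K0 (x y : M) : Prop :=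
  ¬ X.R .T x x ∧ ¬ X.R .D x y ∧ (X.R .B x x → X.Hom x y) ∧
  (X.R .A x x → X.R .A y y → x ≠ y → X.R .B (X.F .d x y) (X.F .d x y) ∧
    ∃ s, ¬ (X.R (.E s) (X.F .d x y) x ↔ X.R (.E s) (X.F .d x y) y)) ∧
  (¬ X.R .A x x → ¬ X.R .A y y → ¬ X.R .Sp x x → ¬ X.R .Sp y y → x ≠ y →
    X.R .A (X.F .d x y) (X.F .d x y) ∧
    X.R .A (X.F .ap x (X.F .d x y)) (X.F .ap x (X.F .d x y)) ∧
    X.F .ap x (X.F .d x y) ≠ X.F .ap y (X.F .d x y)) ∧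
  (X.R .Sp x x → X.R .Sp y y → x = y)

/-- The flag `t` is valid on the pair. -/
def V1 (x y t : M) : Prop :=
  X.R .D x t → X.R .D y t → (∀ s, X.R .D (X.F s x y) t) ∧
    (X.R .A x x → ¬ (X.R (.E []) (X.F .w t x) t ↔ X.R (.E []) (X.F .w t x) x) ∧
      X.Hom (X.F .w t x) y)

/-- Comparability of the pair at the node `σ`. -/
def V2 (x y σ : M) : Prop :=
  X.R .T σ σ → (∃ k, X.R .D x (X.F (.l k) σ y)) ∨ ∃ k, X.R .D y (X.F (.l k) σ x)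

/-- Comparison of the lists of two nodes at `x`. -/
def V3 (x σ ρ : M) : Prop :=
  X.R .T σ σ → X.R .T ρ ρ →
    (∃ k, X.Sep (X.F (.l k) σ ρ) σ ρ ∧ X.R .D x (X.F (.l k) σ ρ)) ∨
    ∀ k, (∃ k', X.F (.l k') σ x = X.F (.l k) ρ x) ∨ X.Sep (X.F (.l k) ρ x) σ ρ

/-- The quantifier-free part of `Q`. -/
def Mx (x y p q : M) : Prop :=
  X.K0 x y ∧ X.V1 x y p ∧ X.V2 x y p ∧ X.V3 x p q ∧ ¬ X.R .S x p

/-- Good pairs. -/
def Q (x y : M) : Prop := ∀ p q, X.Mx x y p q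

/-- The quantifier-free part of `Tree`. -/
def TM (σ ρ e e' : M) : Prop :=
  X.R .T σ σ → X.R .T ρ ρ →
    (X.Sep e σ ρ → (∃ k, X.F (.l k) σ ρ = e) ∧
      ∀ b, X.R .T (X.F (.en b) e e) (X.F (.en b) e e) ∧ (X.R .S e (X.F (.en b) e e) ↔ b = true) ∧
        (¬ X.Sep e' σ ρ → (X.R .S e' (X.F (.en b) e e) ↔ X.R .S e' σ))) ∧
    ∃ n, ∀ k, X.Sep (X.F (.l k) σ ρ) σ ρ → ∃ k' < n, X.F (.l k') σ ρ = X.F (.l k) σ ρ

/-- The nodes and the separating elements form a tree. -/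
def Tree : Prop := ∀ σ ρ e e', X.TM σ ρ e e'

/-- Members of the class. -/
def Mem : Prop := Nonempty M ∧ X.Tree ∧ ((∃ σ, X.R .T σ σ) ∨ ∀ x y, X.Q x y)

/-- Strong embeddings. -/
structure Str (X : Dat I M) (Y : Dat I N) (g : M → N) : Prop where
  emb : Emb X Y g
  dom : X.Mem
  cod : Y.Mem
  good : ∀ x y, X.Q x x → X.Q y y → X.Q x y → Y.Q (g x) (g y)

variable (I) in
/-- Amalgamation in the cardinal `c`. -/
def APD (c : Cardinal.{u}) : Prop :=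
  ∀ (M₀ M₁ M₂ : Type u) (X₀ : Dat I M₀) (X₁ : Dat I M₁) (X₂ : Dat I M₂) (g₁ : M₀ → M₁)
    (g₂ : M₀ → M₂), Str X₀ X₁ g₁ → Str X₀ X₂ g₂ → #M₀ = c → #M₁ = c → #M₂ = c →
    ∃ (N : Type u) (Y : Dat I N) (f₁ : M₁ → N) (f₂ : M₂ → N),
      #N = c ∧ Str X₁ Y f₁ ∧ Str X₂ Y f₂ ∧ ∀ x, f₁ (g₁ x) = f₂ (g₂ x)

variable {X} {Y : Dat I N} {Z : Dat I P} {g : M → N} {h : N → P}

theorem _root_.Pool.Agent.Lib.MP_ccf8bc_lc.NM.Emb.comp (h₁ : Emb X Y g) (h₂ : Emb Y Z h) :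
    Emb X Z (h ∘ g) :=
  ⟨h₂.inj.comp h₁.inj, fun s x y => by simp [h₂.F, h₁.F], fun s x y => by simp [h₂.R, h₁.R]⟩

theorem sep_map (e : Emb X Y g) (a σ ρ : M) : Y.Sep (g a) (g σ) (g ρ) ↔ X.Sep a σ ρ := by
  simp only [Sep, e.R]

theorem hom_map (e : Emb X Y g) (b y : M) : Y.Hom (g b) (g y) ↔ X.Hom b y := by
  simp only [Hom, e.R, e.F, e.inj.eq_iff]

theorem k0_map (e : Emb X Y g) (x y : M) : Y.K0 (g x) (g y) ↔ X.K0 x y := by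
  simp only [K0, e.R, e.F, hom_map e, ne_eq, e.inj.eq_iff]

theorem v1_map (e : Emb X Y g) (x y t : M) : Y.V1 (g x) (g y) (g t) ↔ X.V1 x y t := by
  simp only [V1, e.R, e.F, hom_map e]

theorem v2_map (e : Emb X Y g) (x y t : M) : Y.V2 (g x) (g y) (g t) ↔ X.V2 x y t := by
  simp only [V2, e.R, e.F]

theorem v3_map (e : Emb X Y g) (x σ ρ : M) : Y.V3 (g x) (g σ) (g ρ) ↔ X.V3 x σ ρ := by
  simp only [V3, e.R, e.F, sep_map e, e.inj.eq_iff]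

theorem mx_map (e : Emb X Y g) (x y p q : M) :
    Y.Mx (g x) (g y) (g p) (g q) ↔ X.Mx x y p q := by
  simp only [Mx, k0_map e, v1_map e, v2_map e, v3_map e, e.R]

theorem tm_map (e : Emb X Y g) (x y p q : M) :
    Y.TM (g x) (g y) (g p) (g q) ↔ X.TM x y p q := by
  simp only [TM, e.R, e.F, sep_map e, e.inj.eq_iff]

theorem Q.of_emb (e : Emb X Y g) {x y : M} (h : Y.Q (g x) (g y)) : X.Q x y :=
  fun p q => (mx_map e x y p q).1 (h _ _)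

theorem Tree.of_emb (e : Emb X Y g) (h : Y.Tree) : X.Tree :=
  fun a b c d => (tm_map e a b c d).1 (h _ _ _ _)

theorem Q.k0 {x y : M} (h : X.Q x y) : X.K0 x y := (h x x).1
theorem Q.v1 {x y : M} (h : X.Q x y) (t : M) : X.V1 x y t := (h t t).2.1
theorem Q.v2 {x y : M} (h : X.Q x y) (t : M) : X.V2 x y t := (h t t).2.2.1
theorem Q.v3 {x y : M} (h : X.Q x y) (σ ρ : M) : X.V3 x σ ρ := (h σ ρ).2.2.2.1
theorem Q.ns {x y : M} (h : X.Q x y) (p : M) : ¬ X.R .S x p := (h p p).2.2.2.2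

theorem Q.intro {x y : M} (h0 : X.K0 x y) (h1 : ∀ t, X.V1 x y t) (h2 : ∀ t, X.V2 x y t)
    (h3 : ∀ σ ρ, X.V3 x σ ρ) (h4 : ∀ p, ¬ X.R .S x p) : X.Q x y :=
  fun p q => ⟨h0, h1 p, h2 p, h3 p q, h4 p⟩

theorem Tree.mem (h : X.Tree) {σ ρ e : M} (h1 : X.R .T σ σ) (h2 : X.R .T ρ ρ)
    (h3 : X.Sep e σ ρ) : ∃ k, X.F (.l k) σ ρ = e := ((h σ ρ e e h1 h2).1 h3).1

theorem Tree.enT (h : X.Tree) {σ ρ e : M} (h1 : X.R .T σ σ) (h2 : X.R .T ρ ρ)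
    (h3 : X.Sep e σ ρ) (b : Bool) : X.R .T (X.F (.en b) e e) (X.F (.en b) e e) :=
  (((h σ ρ e e h1 h2).1 h3).2 b).1

theorem Tree.enS (h : X.Tree) {σ ρ e : M} (h1 : X.R .T σ σ) (h2 : X.R .T ρ ρ)
    (h3 : X.Sep e σ ρ) (b : Bool) : X.R .S e (X.F (.en b) e e) ↔ b = true :=
  (((h σ ρ e e h1 h2).1 h3).2 b).2.1

theorem Tree.inter (h : X.Tree) {σ ρ e e' : M} (h1 : X.R .T σ σ) (h2 : X.R .T ρ ρ)
    (h3 : X.Sep e σ ρ) (h4 : ¬ X.Sep e' σ ρ) (b : Bool) :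
    X.R .S e' (X.F (.en b) e e) ↔ X.R .S e' σ :=
  (((h σ ρ e e' h1 h2).1 h3).2 b).2.2 h4

theorem Tree.fin (h : X.Tree) {σ ρ : M} (h1 : X.R .T σ σ) (h2 : X.R .T ρ ρ) :
    {e | X.Sep e σ ρ}.Finite := by
  obtain ⟨n, hn⟩ := (h σ ρ σ σ h1 h2).2
  refine ((Set.finite_Iio n).image fun k => X.F (.l k) σ ρ).subset fun e he => ?_
  obtain ⟨k, rfl⟩ := h.mem h1 h2 he
  obtain ⟨k', hk, hk'⟩ := hn k he
  exact ⟨k', hk, hk'⟩

theorem Tree.intro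
    (hm : ∀ σ ρ e, X.R .T σ σ → X.R .T ρ ρ → X.Sep e σ ρ → ∃ k, X.F (.l k) σ ρ = e)
    (hT : ∀ σ ρ e b, X.R .T σ σ → X.R .T ρ ρ → X.Sep e σ ρ →
      X.R .T (X.F (.en b) e e) (X.F (.en b) e e))
    (hS : ∀ σ ρ e b, X.R .T σ σ → X.R .T ρ ρ → X.Sep e σ ρ →
      (X.R .S e (X.F (.en b) e e) ↔ b = true))
    (hI : ∀ σ ρ e e' b, X.R .T σ σ → X.R .T ρ ρ → X.Sep e σ ρ → ¬ X.Sep e' σ ρ →
      (X.R .S e' (X.F (.en b) e e) ↔ X.R .S e' σ))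
    (hf : ∀ σ ρ, X.R .T σ σ → X.R .T ρ ρ → {e | X.Sep e σ ρ}.Finite) : X.Tree := by
  intro σ ρ e e' h1 h2
  refine ⟨fun h3 => ⟨hm σ ρ e h1 h2 h3, fun b => ⟨hT σ ρ e b h1 h2 h3, hS σ ρ e b h1 h2 h3,
    fun h4 => hI σ ρ e e' b h1 h2 h3 h4⟩⟩, ?_⟩
  choose! c hc using fun a => hm σ ρ a h1 h2
  obtain ⟨n, hn⟩ := ((hf σ ρ h1 h2).image c).bddAbove
  exact ⟨n + 1, fun k hk => ⟨c _, Nat.lt_succ_of_le (hn ⟨_, hk, rfl⟩), hc _ hk⟩⟩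

/-- `V3` in a tree. -/
theorem Tree.v3_iff (h : X.Tree) (x σ ρ : M) : X.V3 x σ ρ ↔ (X.R .T σ σ → X.R .T ρ ρ →
    (∃ e, X.Sep e σ ρ ∧ X.R .D x e) ∨
    ∀ k, (∃ k', X.F (.l k') σ x = X.F (.l k) ρ x) ∨ X.Sep (X.F (.l k) ρ x) σ ρ) := by
  refine forall_congr' fun h1 => forall_congr' fun h2 => or_congr_left
    ⟨fun ⟨_, hk⟩ => ⟨_, hk⟩, fun ⟨e, he, hd⟩ => ?_⟩
  obtain ⟨k, rfl⟩ := h.mem h1 h2 he
  exact ⟨k, he, hd⟩

theorem Str.comp (h₁ : Str X Y g) (h₂ : Str Y Z h) : Str X Z (h ∘ g) :=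
  ⟨h₁.emb.comp h₂.emb, h₁.dom, h₂.cod, fun x y a b c =>
    h₂.good _ _ (h₁.good x x a a a) (h₁.good y y b b b) (h₁.good x y a b c)⟩

theorem Str.refl (h : X.Mem) : Str X X id :=
  ⟨⟨Function.injective_id, fun _ _ _ => rfl, fun _ _ _ => Iff.rfl⟩, h, h, fun _ _ _ _ c => c⟩

end Dat

end Pool.Agent.Lib.MP_ccf8bc_lc.NM
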