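import Mathlib
import Pool.Agent.Lib.MP_ccf8bc_lc.Defs
import Pool.Agent.Lib.MP_ccf8bc_lc.NM.Basic

/-!
Cardinal arithmetic: an omitted trace, a measurable cardinal, strong limit cardinals.
-/

namespace Pool.Agent.Lib.MP_ccf8bc_lc.NM

open Cardinal

universe u

theorem Size_lt {α β : Type u} {ν : Cardinal.{u}} (hν : IsStrongLimit ν) (hβ : #β < ν)
    (f : α → Set β) (hf : Function.Injective f) : #α < ν :=
  ((mk_le_of_injective hf).trans_eq mk_set).trans_lt (hν.isStrongPrelimit hβ)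

theorem exists_trace {I M : Type u} [Infinite I] (X : Dat I M) (hK : ∀ x y, X.Q x y)
    (hν : Cardinal.IsStrongLimit #M) (hI : #I < #M) :
    ∃ Tr : M → Prop, ∀ a, X.R .A a a → ∃ b, X.R .B b b ∧ ¬ (Tr b ↔ X.R (.E []) b a) := by
  by_contra hn
  have h0 := hν.aleph0_le
  have hB : #{b | X.R .B b b} < #M := by
    refine (cantor _).trans_le (mk_set.symm.trans_le (mk_le_of_surjective
      (f := fun a : M => {b : {b | X.R .B b b} | X.R (.E []) b.1 a}) fun T => ?_))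
    by_contra hT
    refine hn ⟨fun b => ∃ h, (⟨b, h⟩ : {b | X.R .B b b}) ∈ T, fun a _ => ?_⟩
    by_contra ha
    refine hT ⟨a, Set.ext fun b => ?_⟩
    have h1 := not_not.1 fun h => ha ⟨b.1, b.2, h⟩
    exact ⟨fun h => (h1.2 h).2, fun h => h1.1 ⟨b.2, h⟩⟩
  have hA : #{a | X.R .A a a} < #M := by
    refine Size_lt (β := {b | X.R .B b b} × List I) hν ?_
      (fun a => {p | X.R (.E p.2) p.1.1 a.1}) fun a a' e => ?_
    · rw [mk_prod, lift_id, lift_id, mk_list_eq_mk]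
      exact mul_lt_of_lt h0 hB hI
    · by_contra hne
      obtain ⟨h1, s, h2⟩ := (hK a.1 a'.1).k0.2.2.2.1 a.2 a'.2 fun h => hne (Subtype.ext h)
      exact h2 (Set.ext_iff.1 e (⟨_, h1⟩, s))
  have hR : #{x | ¬ X.R .A x x ∧ ¬ X.R .Sp x x} < #M := by
    refine Size_lt (β := {a | X.R .A a a} × {a | X.R .A a a}) hν ?_
      (fun x => {p | X.F .ap x.1 p.1.1 = p.2.1}) fun x y e => ?_
    · rw [mk_prod, lift_id]
      exact mul_lt_of_lt h0 hA hA
    · by_contra hne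
      obtain ⟨h1, h2, h3⟩ := (hK x.1 y.1).k0.2.2.2.2.1 x.2.1 y.2.1 x.2.2 y.2.2
        fun h => hne (Subtype.ext h)
      exact h3 ((Set.ext_iff.1 e (⟨_, h1⟩, ⟨_, h2⟩)).1 rfl).symm
  have hS : #{x | X.R .Sp x x} < #M :=
    (mk_le_one_iff_set_subsingleton.2 fun x hx y hy => (hK x y).k0.2.2.2.2.2 hx hy).trans_lt
      (one_lt_aleph0.trans_le h0)
  refine (add_lt_of_lt h0 (add_lt_of_lt h0 hA hR) hS).not_ge ?_
  refine le_trans ?_ ((mk_union_le _ _).trans (add_le_add (mk_union_le _ _) le_rfl))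
  refine mk_univ.symm.trans_le (mk_le_mk_of_subset fun x _ => ?_)
  by_cases h1 : X.R .A x x
  · exact Or.inl (Or.inl h1)
  · by_cases h2 : X.R .Sp x x
    · exact Or.inr h2
    · exact Or.inl (Or.inr ⟨h1, h2⟩)

theorem measurable_of_ultrafilter {I α : Type u} [Infinite I] (U : Ultrafilter α)
    (hnp : ∀ a, {a} ∉ U) (hc : ∀ Y : I → Set α, (∀ i, Y i ∈ U) → ⋂ i, Y i ∈ U) :
    ∃ κ, #I < κ ∧ Measurable' κ := by
  have hne : Set.Nonempty {c : Cardinal.{u} |
      ∃ S : Set (Set α), #S = c ∧ (∀ s ∈ S, s ∈ U) ∧ ⋂₀ S ∉ U} := by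
    refine ⟨_, Set.range fun a : α => ({a}ᶜ : Set α), rfl, ?_, fun h => ?_⟩
    · rintro _ ⟨a, rfl⟩
      exact Ultrafilter.compl_mem_iff_notMem.2 (hnp a)
    · obtain ⟨a, ha⟩ := Ultrafilter.nonempty_of_mem h
      exact ha _ ⟨a, rfl⟩ rfl
  obtain ⟨S, h1, h2, h3⟩ := csInf_mem hne
  have hmin : ∀ T : Set (Set α), #T < #S → (∀ s ∈ T, s ∈ U) → ⋂₀ T ∈ U := fun T a b => by
    by_contra c
    exact a.not_ge (h1.trans_le (csInf_le' ⟨T, rfl, b, c⟩))
  have hS : Nonempty S := by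
    rcases S.eq_empty_or_nonempty with rfl | h
    · exact absurd (by rw [Set.sInter_empty]; exact Filter.univ_mem) h3
    · exact h.to_subtype
  have hI : #I < #S := by
    by_contra h
    obtain ⟨g⟩ := (le_def _ _).1 (not_lt.1 h)
    refine h3 (Filter.mem_of_superset
      (hc (fun i => (Function.invFun g i).1) fun i => h2 _ (Function.invFun g i).2)
      fun x hx s hs => ?_)
    obtain ⟨i, hi⟩ := Function.invFun_surjective g.injective ⟨s, hs⟩
    have h4 := Set.mem_iInter.1 hx i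
    rwa [hi] at h4
  refine ⟨#S, hI, (aleph0_le_mk I).trans_lt hI, S,
    U.map fun x => Classical.epsilon fun s : S => x ∉ s.1, rfl, fun s hs => ?_, fun T a b => ?_⟩
  · refine h3 (Filter.mem_of_superset (Filter.inter_mem (Ultrafilter.mem_map.1 hs) (h2 _ s.2))
      fun x hx t ht => ?_)
    by_contra h
    have h4 := Classical.epsilon_spec (p := fun s : S => x ∉ s.1) ⟨⟨t, ht⟩, h⟩
    have h5 : (Classical.epsilon fun s : S => x ∉ s.1) = s := hx.1
    rw [h5] at h4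
    exact h4 hx.2
  · refine Ultrafilter.mem_map.2 (Filter.mem_of_superset
      (hmin (Set.preimage (fun x => Classical.epsilon fun s : S => x ∉ s.1) '' T)
        (mk_image_le.trans_lt a) ?_) fun x hx t ht => hx _ ⟨t, ht, rfl⟩)
    rintro _ ⟨t, ht, rfl⟩
    exact Ultrafilter.mem_map.1 (b t ht)

theorem exists_strongLimit (c : Cardinal.{u}) : ∃ ν, c < ν ∧ Cardinal.IsStrongLimit ν :=
  ⟨ℶ_ (c.ord + Ordinal.omega0), (le_beth_ord c).trans_lt
    (beth_lt_beth.2 (lt_add_of_pos_right _ Ordinal.omega0_pos)),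
    isStrongLimit_beth.2 (Ordinal.isSuccLimit_add _ Ordinal.isSuccLimit_omega0).isSuccPrelimit⟩

end Pool.Agent.Lib.MP_ccf8bc_lc.NM
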