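import Mathlib
import Pool.Agent.Lib.MP_ccf8bc_lc.NM.Basic

/-!
Amalgamation over a base that has a node.
-/

set_option maxHeartbeats 400000

namespace Pool.Agent.Lib.MP_ccf8bc_lc.NM

open Cardinal Dat Set

universe u

variable {I M₀ M₁ M₂ N : Type u} {X₀ : Dat I M₀} {X₁ : Dat I M₁} {X₂ : Dat I M₂} {Y : Dat I N}
  {g₁ : M₀ → M₁} {g₂ : M₀ → M₂} {j₁ : M₁ → N} {j₂ : M₂ → N} {γ₁ : M₁ → M₀} {γ₂ : M₂ → M₀}

theorem gate (e : Emb X₀ X₁ g₁) (h : X₁.Tree) (hT : ∃ σ, X₀.R .T σ σ) (σ : M₁)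
    (hσ : X₁.R .T σ σ) : ∃ ρ, X₀.R .T ρ ρ ∧ ∀ a, ¬ X₁.Sep (g₁ a) σ (g₁ ρ) := by
  classical
  obtain ⟨ρ, hρ, hmin⟩ := (InvImage.wf (fun ρ => {a | X₁.Sep a σ (g₁ ρ)}.ncard)
    Nat.lt_wfRel.wf).has_min {ρ | X₀.R .T ρ ρ} hT
  refine ⟨ρ, hρ, fun a ha => ?_⟩
  have hρ' := (e.R _ _ _).2 hρ
  have h1 := h.enT hσ hρ' ha (decide (X₁.R .S (g₁ a) σ))
  have h2 := h.enS hσ hρ' ha (decide (X₁.R .S (g₁ a) σ))
  have h3 := fun e' h4 => h.inter (e' := e') hσ hρ' ha h4 (decide (X₁.R .S (g₁ a) σ))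
  rw [e.F] at h1 h2 h3
  refine hmin _ ((e.R _ _ _).1 h1) (Set.ncard_lt_ncard ⟨fun e' he' => ?_, fun hs => ?_⟩
    (h.fin hσ hρ'))
  · by_contra h4
    exact he' (h3 e' h4).symm
  · exact hs ha (by simpa using h2.symm)

/-- One half of the description of the amalgam. -/
structure Half (X₀ : Dat I M₀) (X₁ : Dat I M₁) (X₂ : Dat I M₂) (Y : Dat I N)
    (g₁ : M₀ → M₁) (g₂ : M₀ → M₂) (j₁ : M₁ → N) (j₂ : M₂ → N) (γ₁ : M₁ → M₀) (γ₂ : M₂ → M₀) :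
    Prop where
  s : Str X₀ X₁ g₁
  e : Emb X₁ Y j₁
  comm : ∀ q, j₁ (g₁ q) = j₂ (g₂ q)
  cover : ∀ z, (∃ x, j₁ x = z) ∨ ∃ y, y ∉ range g₂ ∧ j₂ y = z
  gT : ∀ x, X₁.R .T x x → X₀.R .T (γ₁ x) (γ₁ x)
  gS : ∀ x a, X₁.R .T x x → ¬ X₁.Sep (g₁ a) x (g₁ (γ₁ x))
  hD : ∀ x y, x ∉ range g₁ → y ∉ range g₂ → ¬ Y.R .D (j₁ x) (j₂ y)
  hS : ∀ x y, x ∉ range g₁ → y ∉ range g₂ →
    (Y.R .S (j₁ x) (j₂ y) ↔ X₂.R .T y y ∧ X₁.R .S x (g₁ (γ₂ y)))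
  hL : ∀ x y, x ∉ range g₁ → y ∉ range g₂ → X₁.R .T x x → ∀ z,
    (∃ k, Y.F (.l k) (j₁ x) (j₂ y) = z) ↔ (∃ k, j₂ (X₂.F (.l k) (g₂ (γ₁ x)) y) = z) ∨
      ∃ a, X₁.Sep a x (g₁ (γ₁ x)) ∧ j₁ a = z

section

variable (A : Half X₀ X₁ X₂ Y g₁ g₂ j₁ j₂ γ₁ γ₂) (B : Half X₀ X₂ X₁ Y g₂ g₁ j₂ j₁ γ₂ γ₁)
include A B

/-- Sides of elements of `M₂` at a new node of `M₁`. -/
theorem side {s : M₁} (hs : s ∉ range g₁) (hT : X₁.R .T s s) (b : M₂) :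
    Y.R .S (j₂ b) (j₁ s) ↔ X₂.R .S b (g₂ (γ₁ s)) := by
  by_cases hb : b ∈ range g₂
  · obtain ⟨a, rfl⟩ := hb
    rw [← A.comm, A.e.R, B.s.emb.R, ← A.s.emb.R]
    exact not_not.1 (A.gS s a hT)
  · rw [B.hS b s hb hs, and_iff_right hT]

/-- New elements of `M₁` do not separate nodes of `M₂`. -/
theorem nosep {a : M₁} (ha : a ∉ range g₁) {y y' : M₂} (hy : X₂.R .T y y) (hy' : X₂.R .T y' y') :
    Y.R .S (j₁ a) (j₂ y) ↔ Y.R .S (j₁ a) (j₂ y') := by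
  have key : ∀ y, X₂.R .T y y → ∃ ρ, X₀.R .T ρ ρ ∧ (Y.R .S (j₁ a) (j₂ y) ↔ X₁.R .S a (g₁ ρ)) := by
    intro y hy
    by_cases h : y ∈ range g₂
    · obtain ⟨q, rfl⟩ := h
      exact ⟨q, (B.s.emb.R _ _ _).1 hy, by rw [← A.comm, A.e.R]⟩
    · exact ⟨γ₂ y, B.gT y hy, by rw [A.hS a y ha h, and_iff_right hy]⟩
  obtain ⟨ρ, h1, h2⟩ := key y hy
  obtain ⟨ρ', h1', h2'⟩ := key y' hy'
  rw [h2, h2']
  by_contra h
  obtain ⟨k, hk⟩ := A.s.cod.2.1.mem ((A.s.emb.R _ _ _).2 h1) ((A.s.emb.R _ _ _).2 h1') h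
  exact ha ⟨_, (A.s.emb.F _ _ _).symm.trans hk⟩

/-- Projection of a node to `M₂`, with the lists at the new points of `M₂`. -/
theorem proj {z : N} (hz : Y.R .T z z) : ∃ y, X₂.R .T y y ∧
    (∀ b, Y.R .S (j₂ b) z ↔ X₂.R .S b y) ∧ ∀ x, x ∉ range g₂ → ∀ w,
      (∃ k, Y.F (.l k) z (j₂ x) = w) ↔ (∃ k, j₂ (X₂.F (.l k) y x) = w) ∨ Y.Sep w z (j₂ y) := by
  rcases B.cover z with ⟨y, rfl⟩ | ⟨s, hs, rfl⟩
  · refine ⟨y, (B.e.R _ _ _).1 hz, fun b => B.e.R _ _ _, fun x _ w => ?_⟩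
    simp [B.e.F, Dat.Sep]
  · have hT := (A.e.R _ _ _).1 hz
    have hγ := A.gT s hT
    refine ⟨g₂ (γ₁ s), (B.s.emb.R _ _ _).2 hγ, side A B hs hT, fun x hx w => ?_⟩
    rw [A.hL s x hs hx hT, ← A.comm]
    refine or_congr_right ⟨?_, fun h => ?_⟩
    · rintro ⟨a, ha, rfl⟩
      exact (sep_map A.e _ _ _).2 ha
    · rcases A.cover w with ⟨a, rfl⟩ | ⟨b, hb, rfl⟩
      · exact ⟨a, (sep_map A.e _ _ _).1 h, rfl⟩
      · exact absurd (nosep B A hb hT ((A.s.emb.R _ _ _).2 hγ)) h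

theorem mem_same {x x' : M₁} {e : N} (h1 : Y.R .T (j₁ x) (j₁ x)) (h2 : Y.R .T (j₁ x') (j₁ x'))
    (h3 : Y.Sep e (j₁ x) (j₁ x')) : ∃ k, Y.F (.l k) (j₁ x) (j₁ x') = e := by
  rw [A.e.R] at h1 h2
  rcases A.cover e with ⟨a, rfl⟩ | ⟨b, hb, rfl⟩
  · obtain ⟨k, rfl⟩ := A.s.cod.2.1.mem h1 h2 ((sep_map A.e _ _ _).1 h3)
    exact ⟨k, A.e.F _ _ _⟩
  · exact absurd (nosep B A hb h1 h2) h3

theorem mem_half {x : M₁} {z e : N} (hx : x ∉ range g₁) (h1 : Y.R .T (j₁ x) (j₁ x))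
    (h2 : Y.R .T z z) (h3 : Y.Sep e (j₁ x) z) : ∃ k, Y.F (.l k) (j₁ x) z = e := by
  rcases A.cover z with ⟨x', rfl⟩ | ⟨y, hy, rfl⟩
  · exact mem_same A B h1 h2 h3
  rw [A.e.R] at h1
  rw [B.e.R] at h2
  have hγ := (B.s.emb.R _ _ _).2 (A.gT x h1)
  rw [A.hL x y hx hy h1]
  rcases B.cover e with ⟨b, rfl⟩ | ⟨a, ha, rfl⟩
  · left
    obtain ⟨k, hk⟩ := B.s.cod.2.1.mem (e := b) hγ h2 (by
      rw [Dat.Sep, ← side A B hx h1, ← B.e.R]; exact h3)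
    exact ⟨k, by rw [hk]⟩
  · right
    refine ⟨a, ?_, rfl⟩
    rw [← sep_map A.e, A.comm, Dat.Sep, nosep A B ha hγ h2]
    exact h3

theorem en_half {z z' : N} {a : M₁} (h1 : Y.R .T z z) (h2 : Y.R .T z' z')
    (h3 : Y.Sep (j₁ a) z z') (b : Bool) :
    Y.R .T (Y.F (.en b) (j₁ a) (j₁ a)) (Y.F (.en b) (j₁ a) (j₁ a)) ∧
    (Y.R .S (j₁ a) (Y.F (.en b) (j₁ a) (j₁ a)) ↔ b = true) ∧
    ∀ e', ¬ Y.Sep e' z z' → (Y.R .S e' (Y.F (.en b) (j₁ a) (j₁ a)) ↔ Y.R .S e' z) := by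
  obtain ⟨x, p1, p2, -⟩ := proj B A h1
  obtain ⟨x', p1', p2', -⟩ := proj B A h2
  have h4 : X₁.Sep a x x' := by rw [Dat.Sep, ← p2, ← p2']; exact h3
  have hT := A.s.cod.2.1.enT p1 p1' h4 b
  refine ⟨by rw [A.e.F, A.e.R]; exact hT,
    by rw [A.e.F, A.e.R]; exact A.s.cod.2.1.enS p1 p1' h4 b, fun e' h5 => ?_⟩
  rcases A.cover e' with ⟨a', rfl⟩ | ⟨b', hb', rfl⟩
  · rw [A.e.F, A.e.R, p2]
    exact A.s.cod.2.1.inter p1 p1' h4 (by rw [Dat.Sep, ← p2, ← p2']; exact h5) b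
  rcases A.cover z with ⟨s, rfl⟩ | ⟨y, -, rfl⟩
  · rw [A.e.F]
    exact nosep B A hb' hT ((A.e.R _ _ _).1 h1)
  rcases A.cover z' with ⟨s, rfl⟩ | ⟨y', -, rfl⟩
  · rw [A.e.F, not_not.1 h5]
    exact nosep B A hb' hT ((A.e.R _ _ _).1 h2)
  rw [B.e.R] at h1 h2
  by_cases ha : a ∈ range g₁
  · obtain ⟨q, rfl⟩ := ha
    rw [A.comm] at h3 ⊢
    rw [B.e.F, B.e.R, B.e.R]
    exact B.s.cod.2.1.inter h1 h2 ((sep_map B.e _ _ _).1 h3) (mt (sep_map B.e _ _ _).2 h5) b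
  · exact absurd (nosep A B ha h1 h2) h3

theorem tree : Y.Tree := by
  have key : ∀ σ ρ e b, Y.R .T σ σ → Y.R .T ρ ρ → Y.Sep e σ ρ →
      Y.R .T (Y.F (.en b) e e) (Y.F (.en b) e e) ∧ (Y.R .S e (Y.F (.en b) e e) ↔ b = true) ∧
      ∀ e', ¬ Y.Sep e' σ ρ → (Y.R .S e' (Y.F (.en b) e e) ↔ Y.R .S e' σ) := by
    intro σ ρ e b h1 h2 h3
    rcases A.cover e with ⟨a, rfl⟩ | ⟨a, -, rfl⟩
    · exact en_half A B h1 h2 h3 b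
    · exact en_half B A h1 h2 h3 b
  refine Tree.intro (fun σ ρ e h1 h2 h3 => ?_) (fun σ ρ e b h1 h2 h3 => (key σ ρ e b h1 h2 h3).1)
    (fun σ ρ e b h1 h2 h3 => (key σ ρ e b h1 h2 h3).2.1)
    (fun σ ρ e e' b h1 h2 h3 h4 => (key σ ρ e b h1 h2 h3).2.2 e' h4) fun σ ρ h1 h2 => ?_
  · rcases A.cover σ with ⟨x, rfl⟩ | ⟨y, hy, rfl⟩
    · by_cases hx : x ∈ range g₁
      · obtain ⟨q, rfl⟩ := hx
        rcases A.cover ρ with ⟨x', rfl⟩ | ⟨y, -, rfl⟩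
        · exact mem_same A B h1 h2 h3
        · rw [A.comm] at h1 h3 ⊢
          exact mem_same B A h1 h2 h3
      · exact mem_half A B hx h1 h2 h3
    · exact mem_half B A hy h1 h2 h3
  · obtain ⟨x, p1, p2, -⟩ := proj B A h1
    obtain ⟨x', p1', p2', -⟩ := proj B A h2
    obtain ⟨y, q1, q2, -⟩ := proj A B h1
    obtain ⟨y', q1', q2', -⟩ := proj A B h2
    refine (((A.s.cod.2.1.fin p1 p1').image j₁).union
      ((B.s.cod.2.1.fin q1 q1').image j₂)).subset fun e he => ?_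
    rcases A.cover e with ⟨a, rfl⟩ | ⟨a, -, rfl⟩
    · exact Or.inl ⟨a, by rw [mem_ofPred_eq, Dat.Sep, ← p2, ← p2']; exact he, rfl⟩
    · exact Or.inr ⟨a, by rw [mem_ofPred_eq, Dat.Sep, ← q2, ← q2']; exact he, rfl⟩

theorem transfer {q q' : M₀} (h1 : X₂.Q (g₂ q) (g₂ q)) (h2 : X₂.Q (g₂ q') (g₂ q'))
    (h3 : X₂.Q (g₂ q) (g₂ q')) : X₁.Q (g₁ q) (g₁ q') :=
  A.s.good q q' (h1.of_emb B.s.emb) (h2.of_emb B.s.emb) (h3.of_emb B.s.emb)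

theorem v2_half {x y : M₂} {s : M₁} (hs : s ∉ range g₁) (hy : y ∉ range g₂) (hx : X₂.Q x x)
    (hv : X₂.V2 x y (g₂ (γ₁ s))) : Y.V2 (j₂ x) (j₂ y) (j₁ s) := by
  intro hT
  rw [A.e.R] at hT
  have hγ := A.gT s hT
  rcases hv ((B.s.emb.R _ _ _).2 hγ) with ⟨k, hk⟩ | ⟨k, hk⟩
  · obtain ⟨k', hk'⟩ := (A.hL s y hs hy hT _).2 (Or.inl ⟨k, rfl⟩)
    exact Or.inl ⟨k', by rw [hk', B.e.R]; exact hk⟩
  by_cases h : x ∈ range g₂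
  · obtain ⟨q, rfl⟩ := h
    rcases (transfer A B hx hx hx).v3 s (g₁ (γ₁ s)) hT ((A.s.emb.R _ _ _).2 hγ) with
      ⟨k', h1, h2⟩ | h1
    · obtain ⟨k'', hk''⟩ := (A.hL s y hs hy hT _).2 (Or.inr ⟨_, h1, rfl⟩)
      exact Or.inl ⟨k'', by rw [hk'', ← A.comm, A.e.R]; exact h2⟩
    · rcases h1 k with ⟨k', hk'⟩ | h2
      · refine Or.inr ⟨k', ?_⟩
        rw [← A.comm, A.e.F, hk', A.s.emb.F, A.comm, ← B.s.emb.F, B.e.R]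
        exact hk
      · rw [A.s.emb.F] at h2
        exact absurd h2 (A.gS s _ hT)
  · obtain ⟨k', hk'⟩ := (A.hL s x hs h hT _).2 (Or.inl ⟨k, rfl⟩)
    exact Or.inr ⟨k', by rw [hk', B.e.R]; exact hk⟩

theorem v3_new {x : M₂} (hx : x ∉ range g₂) (hQ : X₂.Q x x) (z z' : N) : Y.V3 (j₂ x) z z' := by
  rw [(tree A B).v3_iff]
  intro h1 h2
  obtain ⟨y, p1, p2, p3⟩ := proj A B h1
  obtain ⟨y', p1', p2', p3'⟩ := proj A B h2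
  have hs : ∀ b, X₂.Sep b y y' → Y.Sep (j₂ b) z z' := fun b hb => by
    rw [Dat.Sep, p2, p2']; exact hb
  rcases hQ.v3 y y' p1 p1' with ⟨k, h3, h4⟩ | h3
  · exact Or.inl ⟨_, hs _ h3, (B.e.R _ _ _).2 h4⟩
  refine Or.inr fun k => ?_
  rcases (p3' x hx _).1 ⟨k, rfl⟩ with ⟨k₀, h4⟩ | h4
  · rw [← h4]
    rcases h3 k₀ with ⟨k', h5⟩ | h5
    · exact Or.inl ((p3 x hx _).2 (Or.inl ⟨k', by rw [h5]⟩))
    · exact Or.inr (hs _ h5)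
  · generalize Y.F (.l k) z' (j₂ x) = w at h4 ⊢
    by_cases h5 : Y.Sep w z (j₂ y)
    · exact Or.inl ((p3 x hx _).2 (Or.inr h5))
    refine Or.inr fun h6 => ?_
    rcases B.cover w with ⟨b, rfl⟩ | ⟨a, ha, rfl⟩
    · exact h4 (by rw [p2', B.e.R])
    · exact h4 (h6.symm.trans ((not_not.1 h5).trans (nosep A B ha p1 p1')))

theorem v3_mix {q : M₀} (q1 : X₁.Q (g₁ q) (g₁ q)) (q2 : X₂.Q (g₂ q) (g₂ q)) {s : M₁} {s' : M₂}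
    (hs : s ∉ range g₁) : Y.V3 (j₁ (g₁ q)) (j₁ s) (j₂ s') := by
  rw [(tree A B).v3_iff]
  intro h1 h2
  rw [A.e.R] at h1
  rw [B.e.R] at h2
  have hγ := A.gT s h1
  have hγ2 := (B.s.emb.R _ _ _).2 hγ
  have s1 : ∀ a, X₁.Sep a s (g₁ (γ₁ s)) → Y.Sep (j₁ a) (j₁ s) (j₂ s') := fun a ha => by
    have ha' : a ∉ range g₁ := by
      rintro ⟨b, rfl⟩
      exact A.gS s b h1 ha
    rw [Dat.Sep, ← nosep A B ha' hγ2 h2, ← A.comm]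
    exact (sep_map A.e _ _ _).2 ha
  have s2 : ∀ b, X₂.Sep b (g₂ (γ₁ s)) s' → Y.Sep (j₂ b) (j₁ s) (j₂ s') := fun b hb => by
    rw [Dat.Sep, side A B hs h1, B.e.R]
    exact hb
  rcases q1.v3 s (g₁ (γ₁ s)) h1 ((A.s.emb.R _ _ _).2 hγ) with ⟨k, h3, h4⟩ | h3
  · exact Or.inl ⟨_, s1 _ h3, (A.e.R _ _ _).2 h4⟩
  rcases q2.v3 (g₂ (γ₁ s)) s' hγ2 h2 with ⟨k, h4, h5⟩ | h4
  · exact Or.inl ⟨_, s2 _ h4, by rw [A.comm, B.e.R]; exact h5⟩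
  refine Or.inr fun k => ?_
  have e1 : Y.F (.l k) (j₂ s') (j₁ (g₁ q)) = j₂ (X₂.F (.l k) s' (g₂ q)) := by rw [A.comm, B.e.F]
  rw [e1]
  rcases h4 k with ⟨k', h5⟩ | h5
  · rw [← h5, B.s.emb.F, ← A.comm, ← A.s.emb.F]
    rcases h3 k' with ⟨k'', h6⟩ | h6
    · exact Or.inl ⟨k'', by rw [A.e.F, h6]⟩
    · exact Or.inr (s1 _ h6)
  · exact Or.inr (s2 _ h5)

theorem good_half (x y : M₂) (hx : X₂.Q x x) (hy : X₂.Q y y) (hxy : X₂.Q x y) :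
    Y.Q (j₂ x) (j₂ y) := by
  refine Q.intro ((k0_map B.e _ _).2 hxy.k0) (fun t => ?_) (fun t => ?_) (fun z z' => ?_)
    fun p => ?_
  · rcases B.cover t with ⟨t, rfl⟩ | ⟨t, ht, rfl⟩
    · exact (v1_map B.e _ _ _).2 (hxy.v1 t)
    intro d1 d2
    obtain ⟨q, rfl⟩ : x ∈ range g₂ := by_contra fun h => B.hD x t h ht d1
    obtain ⟨q', rfl⟩ : y ∈ range g₂ := by_contra fun h => B.hD y t h ht d2
    have := (v1_map A.e _ _ _).2 ((transfer A B hx hy hxy).v1 t)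
    rw [A.comm, A.comm] at this
    exact this d1 d2
  · rcases B.cover t with ⟨t, rfl⟩ | ⟨t, ht, rfl⟩
    · exact (v2_map B.e _ _ _).2 (hxy.v2 t)
    by_cases h : y ∈ range g₂
    · by_cases h' : x ∈ range g₂
      · obtain ⟨q, rfl⟩ := h'
        obtain ⟨q', rfl⟩ := h
        have := (v2_map A.e _ _ _).2 ((transfer A B hx hy hxy).v2 t)
        rwa [A.comm, A.comm] at this
      · exact fun hT => (v2_half A B ht h' hy (fun hT' => (hxy.v2 _ hT').symm) hT).symm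
    · exact v2_half A B ht h hx (hxy.v2 _)
  · by_cases h : x ∈ range g₂
    · obtain ⟨q, rfl⟩ := h
      have q1 := transfer A B hx hx hx
      rcases B.cover z with ⟨s, rfl⟩ | ⟨s, hs, rfl⟩
      · rcases B.cover z' with ⟨s', rfl⟩ | ⟨s', -, rfl⟩
        · exact (v3_map B.e _ _ _).2 (hx.v3 s s')
        · by_cases hs : s ∈ range g₂
          · obtain ⟨r, rfl⟩ := hs
            rw [← A.comm, ← A.comm]
            exact (v3_map A.e _ _ _).2 (q1.v3 _ _)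
          · exact v3_mix B A hx q1 hs
      · rw [← A.comm]
        rcases B.cover z' with ⟨s', rfl⟩ | ⟨s', -, rfl⟩
        · exact v3_mix A B q1 hx hs
        · exact (v3_map A.e _ _ _).2 (q1.v3 _ _)
    · exact v3_new A B h hx z z'
  · rcases B.cover p with ⟨p, rfl⟩ | ⟨p, hp, rfl⟩
    · rw [B.e.R]
      exact hx.ns p
    by_cases h : x ∈ range g₂
    · obtain ⟨q, rfl⟩ := h
      rw [← A.comm, A.e.R]
      exact (transfer A B hx hx hx).ns p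
    · rw [B.hS x p h hp]
      exact fun h' => hx.ns _ h'.2

end

theorem exists_sq (h₁ : Function.Injective g₁) (h₂ : Function.Injective g₂) :
    ∃ (N : Type u) (j₁ : M₁ → N) (j₂ : M₂ → N), #N ≤ #M₁ + #M₂ ∧ Function.Injective j₁ ∧
      Function.Injective j₂ ∧ (∀ q, j₁ (g₁ q) = j₂ (g₂ q)) ∧
      (∀ x y, j₁ x = j₂ y → ∃ q, g₁ q = x ∧ g₂ q = y) ∧
      ∀ z, (∃ x, j₁ x = z) ∨ ∃ y, j₂ y = z := by
  classical
  let j₂ : M₂ → M₁ ⊕ {y // y ∉ range g₂} := fun y =>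
    if h : y ∈ range g₂ then Sum.inl (g₁ h.choose) else Sum.inr ⟨y, h⟩
  have e1 : ∀ q, j₂ (g₂ q) = Sum.inl (g₁ q) := fun q => by
    have h : g₂ q ∈ range g₂ := ⟨q, rfl⟩
    simp only [j₂, dif_pos h, h₂ h.choose_spec]
  have e2 : ∀ y (h : y ∉ range g₂), j₂ y = Sum.inr ⟨y, h⟩ := fun y h => dif_neg h
  refine ⟨M₁ ⊕ {y // y ∉ range g₂}, Sum.inl, j₂, ?_, Sum.inl_injective, fun y y' h => ?_,
    fun q => (e1 q).symm, fun x y h => ?_, ?_⟩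
  · simp only [Cardinal.mk_sum, lift_id]
    exact add_le_add le_rfl (Cardinal.mk_subtype_le _)
  · by_cases a : y ∈ range g₂ <;> by_cases b : y' ∈ range g₂
    · obtain ⟨q, rfl⟩ := a
      obtain ⟨q', rfl⟩ := b
      rw [e1, e1] at h
      rw [h₁ (Sum.inl_injective h)]
    · obtain ⟨q, rfl⟩ := a
      rw [e1, e2 _ b] at h
      exact absurd h Sum.inl_ne_inr
    · obtain ⟨q, rfl⟩ := b
      rw [e1, e2 _ a] at h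
      exact absurd h Sum.inr_ne_inl
    · rw [e2 _ a, e2 _ b] at h
      exact congrArg Subtype.val (Sum.inr_injective h)
  · by_cases a : y ∈ range g₂
    · obtain ⟨q, rfl⟩ := a
      rw [e1] at h
      exact ⟨q, (Sum.inl_injective h).symm, rfl⟩
    · rw [e2 _ a] at h
      exact absurd h Sum.inl_ne_inr
  · rintro (x | ⟨y, h⟩)
    · exact Or.inl ⟨x, rfl⟩
    · exact Or.inr ⟨y, e2 y h⟩

theorem exists_glue {α : Type*} [Nonempty M₁] [Nonempty M₂] (i₁ : Function.Injective j₁)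
    (i₂ : Function.Injective j₂) (comm : ∀ q, j₁ (g₁ q) = j₂ (g₂ q))
    (meet : ∀ x y, j₁ x = j₂ y → ∃ q, g₁ q = x ∧ g₂ q = y) (f₁ : M₁ → M₁ → α) (f₂ : M₂ → M₂ → α)
    (hf : ∀ q q', f₁ (g₁ q) (g₁ q') = f₂ (g₂ q) (g₂ q')) (m₁ : M₁ → M₂ → α) (m₂ : M₂ → M₁ → α) :
    ∃ f : N → N → α, (∀ x x', f (j₁ x) (j₁ x') = f₁ x x') ∧ (∀ y y', f (j₂ y) (j₂ y') = f₂ y y') ∧
      ∀ x y, x ∉ range g₁ → y ∉ range g₂ →
        f (j₁ x) (j₂ y) = m₁ x y ∧ f (j₂ y) (j₁ x) = m₂ y x := by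
  classical
  have l₁ := Function.leftInverse_invFun i₁
  have l₂ := Function.leftInverse_invFun i₂
  refine ⟨fun z z' => if z ∈ range j₁ ∧ z' ∈ range j₁ then
      f₁ (Function.invFun j₁ z) (Function.invFun j₁ z') else if z ∈ range j₂ ∧ z' ∈ range j₂ then
      f₂ (Function.invFun j₂ z) (Function.invFun j₂ z') else if z ∈ range j₁ then
      m₁ (Function.invFun j₁ z) (Function.invFun j₂ z') else
      m₂ (Function.invFun j₂ z) (Function.invFun j₁ z'), fun x x' => ?_, fun y y' => ?_,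
      fun x y hx hy => ?_⟩
  · simp only [mem_range_self, and_self, if_true, l₁ x, l₁ x']
  · dsimp only
    split_ifs with h h'
    · obtain ⟨⟨x, hx⟩, x', hx'⟩ := h
      obtain ⟨q, rfl, rfl⟩ := meet _ _ hx
      obtain ⟨q', rfl, rfl⟩ := meet _ _ hx'
      rw [← comm, ← comm, l₁, l₁, hf]
    · rw [l₂, l₂]
    all_goals exact absurd ⟨mem_range_self _, mem_range_self _⟩ h'
  · have a : j₂ y ∉ range j₁ := by
      rintro ⟨x', h⟩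
      obtain ⟨q, -, rfl⟩ := meet _ _ h
      exact hy ⟨q, rfl⟩
    have b : j₁ x ∉ range j₂ := by
      rintro ⟨y', h⟩
      obtain ⟨q, rfl, -⟩ := meet _ _ h.symm
      exact hx ⟨q, rfl⟩
    simp only [a, b, mem_range_self, and_false, false_and, if_false, if_true, l₁ x, l₂ y, and_self]

/-- Mixed values of the functions. -/
def mF (lst : M₁ → M₂ → ℕ → N) (j₁ : M₁ → N) : FS I → M₁ → M₂ → N
  | .l k, x, y => lst x y k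
  | _, x, _ => j₁ x

/-- Mixed values of the relations. -/
def mR (X₁ : Dat I M₁) (X₂ : Dat I M₂) (p : M₂ → M₁) : RS I → M₁ → M₂ → Prop
  | .S, x, y => X₂.R .T y y ∧ X₁.R .S x (p y)
  | _, _, _ => False

theorem exists_lst (h₁ : Str X₀ X₁ g₁) (X₂ : Dat I M₂) (g₂ : M₀ → M₂) (j₁ : M₁ → N) (j₂ : M₂ → N)
    (gT : ∀ x, X₁.R .T x x → X₀.R .T (γ₁ x) (γ₁ x)) :
    ∃ lst : M₁ → M₂ → ℕ → N, ∀ x y, X₁.R .T x x → ∀ z, (∃ k, lst x y k = z) ↔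
      (∃ k, j₂ (X₂.F (.l k) (g₂ (γ₁ x)) y) = z) ∨ ∃ a, X₁.Sep a x (g₁ (γ₁ x)) ∧ j₁ a = z := by
  have : ∀ x y, ∃ l : ℕ → N, X₁.R .T x x → ∀ z, (∃ k, l k = z) ↔
      (∃ k, j₂ (X₂.F (.l k) (g₂ (γ₁ x)) y) = z) ∨ ∃ a, X₁.Sep a x (g₁ (γ₁ x)) ∧ j₁ a = z := by
    intro x y
    by_cases hx : X₁.R .T x x
    · obtain ⟨l, hl⟩ := Set.Countable.exists_eq_range ((Set.countable_range fun k =>
        j₂ (X₂.F (.l k) (g₂ (γ₁ x)) y)).union ((h₁.cod.2.1.fin hx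
          ((h₁.emb.R _ _ _).2 (gT x hx))).image j₁).countable) ⟨_, Or.inl ⟨0, rfl⟩⟩
      exact ⟨l, fun _ z => (Set.ext_iff.1 hl z).symm⟩
    · exact ⟨fun _ => j₁ x, fun h => absurd h hx⟩
  choose lst h using this
  exact ⟨lst, h⟩

theorem amal {I M₀ M₁ M₂ : Type u} {X₀ : Dat I M₀} {X₁ : Dat I M₁} {X₂ : Dat I M₂}
    {g₁ : M₀ → M₁} {g₂ : M₀ → M₂} (h₁ : Dat.Str X₀ X₁ g₁) (h₂ : Dat.Str X₀ X₂ g₂)
    (hT : ∃ σ, X₀.R .T σ σ) :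
    ∃ (N : Type u) (Y : Dat I N) (f₁ : M₁ → N) (f₂ : M₂ → N), #N ≤ #M₁ + #M₂ ∧
      Dat.Str X₁ Y f₁ ∧ Dat.Str X₂ Y f₂ ∧ ∀ x, f₁ (g₁ x) = f₂ (g₂ x) := by
  have := h₁.cod.1
  have := h₂.cod.1
  have := h₁.dom.1
  obtain ⟨N, j₁, j₂, hN, i₁, i₂, comm, meet, cover⟩ := exists_sq h₁.emb.inj h₂.emb.inj
  choose! γ₁ gT₁ gS₁ using gate h₁.emb h₁.cod.2.1 hT
  choose! γ₂ gT₂ gS₂ using gate h₂.emb h₂.cod.2.1 hT
  obtain ⟨l₁, hl₁⟩ := exists_lst h₁ X₂ g₂ j₁ j₂ gT₁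
  obtain ⟨l₂, hl₂⟩ := exists_lst h₂ X₁ g₁ j₂ j₁ gT₂
  choose F F1 F2 F3 using fun s : FS I => exists_glue i₁ i₂ comm meet
    (fun x x' => j₁ (X₁.F s x x')) (fun x x' => j₂ (X₂.F s x x'))
    (fun q q' => by rw [h₁.emb.F, h₂.emb.F, comm]) (mF l₁ j₁ s) (mF l₂ j₂ s)
  choose R R1 R2 R3 using fun s : RS I => exists_glue i₁ i₂ comm meet
    (X₁.R s) (X₂.R s) (fun q q' => propext ((h₁.emb.R _ _ _).trans (h₂.emb.R _ _ _).symm))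
    (mR X₁ X₂ (fun y => g₁ (γ₂ y)) s) (mR X₂ X₁ (fun y => g₂ (γ₁ y)) s)
  have A : Half X₀ X₁ X₂ ⟨F, R⟩ g₁ g₂ j₁ j₂ γ₁ γ₂ := by
    refine ⟨h₁, ⟨i₁, F1, fun s x y => (R1 s x y).to_iff⟩, comm, fun z => ?_, gT₁,
      fun x a hx => gS₁ x hx a, fun x y hx hy => (R3 .D x y hx hy).1.to_iff.not.2 id,
      fun x y hx hy => (R3 .S x y hx hy).1.to_iff, fun x y hx hy h z => ?_⟩
    · rcases cover z with h | ⟨y, rfl⟩
      · exact Or.inl h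
      · by_cases hy : y ∈ range g₂
        · obtain ⟨q, rfl⟩ := hy
          exact Or.inl ⟨_, comm q⟩
        · exact Or.inr ⟨y, hy, rfl⟩
    · rw [← hl₁ x y h z]
      exact exists_congr fun k => (congrArg (· = z) (F3 (.l k) x y hx hy).1).to_iff
  have B : Half X₀ X₂ X₁ ⟨F, R⟩ g₂ g₁ j₂ j₁ γ₂ γ₁ := by
    refine ⟨h₂, ⟨i₂, F2, fun s x y => (R2 s x y).to_iff⟩, fun q => (comm q).symm, fun z => ?_, gT₂,
      fun x a hx => gS₂ x hx a, fun x y hx hy => (R3 .D y x hy hx).2.to_iff.not.2 id,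
      fun x y hx hy => (R3 .S y x hy hx).2.to_iff, fun x y hx hy h z => ?_⟩
    · rcases cover z with ⟨y, rfl⟩ | h
      · by_cases hy : y ∈ range g₁
        · obtain ⟨q, rfl⟩ := hy
          exact Or.inl ⟨_, (comm q).symm⟩
        · exact Or.inr ⟨y, hy, rfl⟩
      · exact Or.inl h
    · rw [← hl₂ x y h z]
      exact exists_congr fun k => (congrArg (· = z) (F3 (.l k) y x hy hx).2).to_iff
  obtain ⟨σ, hσ⟩ := hT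
  have hY : Dat.Mem (⟨F, R⟩ : Dat I N) := ⟨⟨j₁ (g₁ σ)⟩, tree A B,
    Or.inl ⟨j₁ (g₁ σ), (A.e.R _ _ _).2 ((h₁.emb.R _ _ _).2 hσ)⟩⟩
  exact ⟨N, ⟨F, R⟩, j₁, j₂, hN, ⟨A.e, h₁.cod, hY, good_half B A⟩, ⟨B.e, h₂.cod, hY, good_half A B⟩,
    comm⟩

end Pool.Agent.Lib.MP_ccf8bc_lc.NM
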