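import Mathlib
import Pool.Agent.Lib.MP_ccf8bc_lc.Defs
import Pool.Agent.Lib.MP_ccf8bc_lc.NM.Basic

/-!
The class as an abstract elementary class.
-/

namespace Pool.Agent.Lib.MP_ccf8bc_lc.NM

open Cardinal FirstOrder FirstOrder.Language FirstOrder.Language.Structure

universe u

/-- Binary function symbols `S` and binary relation symbols `T`. -/
def Class_L (S T : Type u) : FirstOrder.Language.{u, u} where
  Functions n := match n with
    | 2 => S
    | 0 => PEmpty
    | 1 => PEmpty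
    | _ + 3 => PEmpty
  Relations n := match n with
    | 2 => T
    | 0 => PEmpty
    | 1 => PEmpty
    | _ + 3 => PEmpty

/-- The structure given by binary functions and relations. -/
@[reducible] def Class_toS {S T M : Type u} (F : S → M → M → M) (R : T → M → M → Prop) :
    (Class_L S T).Structure M where
  funMap {n} f v := match n, f, v with
    | 2, f, v => F f (v 0) (v 1)
    | 0, f, _ => f.elim
    | 1, f, _ => f.elim
    | _ + 3, f, _ => f.elim
  RelMap {n} r v := match n, r, v with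
    | 2, r, v => R r (v 0) (v 1)
    | 0, r, _ => r.elim
    | 1, r, _ => r.elim
    | _ + 3, r, _ => r.elim

theorem Class_two {A : Type u} (v : Fin 2 → A) : ![v 0, v 1] = v :=
  funext (Fin.forall_fin_two.2 ⟨rfl, rfl⟩)

theorem Class_cardF (S T : Type u) : #(Σ n, (Class_L S T).Functions n) ≤ #S :=
  mk_le_of_surjective (f := fun s : S => (⟨2, s⟩ : Σ n, (Class_L S T).Functions n)) (by
    rintro ⟨_ | _ | _ | n, f⟩
    exacts [f.elim, f.elim, ⟨f, rfl⟩, f.elim])

theorem Class_cardR (S T : Type u) : #(Σ n, (Class_L S T).Relations n) ≤ #T :=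
  mk_le_of_surjective (f := fun s : T => (⟨2, s⟩ : Σ n, (Class_L S T).Relations n)) (by
    rintro ⟨_ | _ | _ | n, f⟩
    exacts [f.elim, f.elim, ⟨f, rfl⟩, f.elim])

theorem Class_closure {S N : Type u} (G : S → N → N → N) (A : Set N) :
    ∃ C : Set N, A ⊆ C ∧ (∀ s, ∀ x ∈ C, ∀ y ∈ C, G s x y ∈ C) ∧ #C ≤ max ℵ₀ (#A + #S) := by
  let _ := Class_toS (T := PEmpty) G fun r => r.elim
  refine ⟨Substructure.closure (Class_L S PEmpty) A, Substructure.subset_closure,
    fun s x hx y hy => (Substructure.closure (Class_L S PEmpty) A).fun_mem (n := 2) s ![x, y]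
      (Fin.forall_fin_two.2 ⟨hx, hy⟩), ?_⟩
  have h := Substructure.lift_card_closure_le (L := Class_L S PEmpty) (s := A)
  simp only [lift_id] at h
  exact h.trans (max_le_max le_rfl (add_le_add le_rfl (Class_cardF _ _)))

theorem Class_prod (α : Type u) [Infinite α] (C : Type) [Countable C] : #(α × C) ≤ #α := by
  rw [mk_prod, lift_uzero]
  exact (mul_le_mul_right (lift_le_aleph0.2 mk_le_aleph0) _).trans
    (mul_aleph0_eq (aleph0_le_mk α)).le

variable {I : Type u}

theorem Class_FS [Infinite I] : #(Option (Option (FS I))) ≤ #I := by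
  have i : I := Classical.arbitrary I
  refine (mk_le_of_surjective (f := fun p : I × ℕ × Bool × Fin 9 =>
    (![none, some none, some (some (.u p.1)), some (some .nor), some (some .ap), some (some .d),
      some (some .w), some (some (.l p.2.1)), some (some (.en p.2.2.1))] p.2.2.2 :
      Option (Option (FS I)))) ?_).trans (Class_prod I _)
  rintro (_ | _ | j | _ | _ | _ | _ | k | b)
  exacts [⟨(i, 0, true, 0), rfl⟩, ⟨(i, 0, true, 1), rfl⟩, ⟨(j, 0, true, 2), rfl⟩,
    ⟨(i, 0, true, 3), rfl⟩, ⟨(i, 0, true, 4), rfl⟩, ⟨(i, 0, true, 5), rfl⟩,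
    ⟨(i, 0, true, 6), rfl⟩, ⟨(i, k, true, 7), rfl⟩, ⟨(i, 0, b, 8), rfl⟩]

theorem Class_RS [Infinite I] : #(RS I) ≤ #I := by
  refine (mk_le_of_surjective (f := fun p : List I × Fin 8 =>
    (![.A, .B, .Sp, .Col, .T, .S, .D, .E p.1] p.2 : RS I)) ?_).trans
    ((Class_prod (List I) _).trans (mk_list_eq_mk I).le)
  rintro (_ | _ | _ | _ | _ | _ | _ | s)
  exacts [⟨([], 0), rfl⟩, ⟨([], 1), rfl⟩, ⟨([], 2), rfl⟩, ⟨([], 3), rfl⟩, ⟨([], 4), rfl⟩,
    ⟨([], 5), rfl⟩, ⟨([], 6), rfl⟩, ⟨(s, 7), rfl⟩]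

variable (I) in
/-- The language of the class. -/
abbrev Class_Lang : FirstOrder.Language.{u, u} := Class_L (FS I) (RS I)

theorem Class_card [Infinite I] : (Class_Lang I).card ≤ #I := by
  rw [Language.card, Language.Symbols, mk_sum, lift_id, lift_id]
  refine add_le_of_le (aleph0_le_mk I) ((Class_cardF _ _).trans (le_trans ?_ Class_FS))
    ((Class_cardR _ _).trans Class_RS)
  exact mk_le_of_injective ((Option.some_injective _).comp (Option.some_injective _))

variable (I) in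
/-- The data of a structure. -/
def Class_ofS (M : Type u) [(Class_Lang I).Structure M] : Dat I M where
  F s x y := funMap (L := Class_Lang I) (n := 2) s ![x, y]
  R s x y := RelMap (L := Class_Lang I) (n := 2) s ![x, y]

section

variable {M N : Type u} [(Class_Lang I).Structure M] [(Class_Lang I).Structure N]

theorem Class_emb (f : M ↪[Class_Lang I] N) : Emb (Class_ofS I M) (Class_ofS I N) f :=
  ⟨f.injective,
    fun s x y => ((f.map_fun (n := 2) s ![x, y]).trans
      (congrArg _ (Class_two (f ∘ ![x, y])).symm)).symm,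
    fun s x y => (Class_two (f ∘ ![x, y]) ▸ Iff.rfl :
      _ ↔ RelMap (L := Class_Lang I) (n := 2) s (f ∘ ![x, y])).trans (f.map_rel (n := 2) s ![x, y])⟩

/-- An embedding of data is an embedding of structures. -/
def Class_ofEmb {f : M → N} (h : Emb (Class_ofS I M) (Class_ofS I N) f) : M ↪[Class_Lang I] N where
  toFun := f
  inj' := h.inj
  map_fun' {n} s v := match n, s, v with
    | 2, s, v => by
      have := h.F s (v 0) (v 1)
      simp only [Class_ofS, Class_two v] at this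
      exact this.symm.trans (congrArg _ (Class_two (f ∘ v)))
    | 0, s, _ => s.elim
    | 1, s, _ => s.elim
    | _ + 3, s, _ => s.elim
  map_rel' {n} s v := match n, s, v with
    | 2, s, v => by
      have := h.R s (v 0) (v 1)
      simp only [Class_ofS, Class_two v] at this
      exact (Class_two (f ∘ v) ▸ Iff.rfl :
        RelMap (L := Class_Lang I) (n := 2) s (f ∘ v) ↔ _).trans this
    | 0, s, _ => s.elim
    | 1, s, _ => s.elim
    | _ + 3, s, _ => s.elim

variable {ι : Type u} [LinearOrder ι] [Nonempty ι] (S : ι → (Class_Lang I).Substructure N)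
  (hS : Monotone S)

include hS in
theorem Class_four (i : ι) (a b c d : (⨆ i, S i : (Class_Lang I).Substructure N)) :
    ∃ j, i ≤ j ∧ ∃ a' b' c' d' : S j, Substructure.inclusion (le_iSup S j) a' = a ∧
      Substructure.inclusion (le_iSup S j) b' = b ∧ Substructure.inclusion (le_iSup S j) c' = c ∧
      Substructure.inclusion (le_iSup S j) d' = d := by
  have hm : ∀ x : (⨆ i, S i : (Class_Lang I).Substructure N), ∀ᶠ j in Filter.atTop, x.1 ∈ S j :=
    fun x => by
      obtain ⟨k, hk⟩ := (Substructure.mem_iSup_of_directed hS.directed_le).1 x.2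
      exact (Filter.eventually_ge_atTop k).mono fun j hj => hS hj hk
  obtain ⟨j, h0, h1, h2, h3, h4⟩ := ((Filter.eventually_ge_atTop i).and
    ((hm a).and ((hm b).and ((hm c).and (hm d))))).exists
  exact ⟨j, h0, ⟨a, h1⟩, ⟨b, h2⟩, ⟨c, h3⟩, ⟨d, h4⟩, rfl, rfl, rfl, rfl⟩

include hS in
theorem Class_mem (h : ∀ i, (Class_ofS I (S i)).Mem) :
    (Class_ofS I (⨆ i, S i : (Class_Lang I).Substructure N)).Mem := by
  have i : ι := Classical.arbitrary ι
  have he := fun j => Class_emb (Substructure.inclusion (le_iSup S j))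
  refine ⟨(h i).1.map (Substructure.inclusion (le_iSup S i)), fun a b c d => ?_, ?_⟩
  · obtain ⟨j, -, a, b, c, d, rfl, rfl, rfl, rfl⟩ := Class_four S hS i a b c d
    exact (Dat.tm_map (he j) a b c d).2 ((h j).2.1 a b c d)
  by_cases hn : ∃ j σ, (Class_ofS I (S j)).R .T σ σ
  · obtain ⟨j, σ, hσ⟩ := hn
    exact Or.inl ⟨_, ((he j).R _ σ σ).2 hσ⟩
  refine Or.inr fun a b c d => ?_
  obtain ⟨j, -, a, b, c, d, rfl, rfl, rfl, rfl⟩ := Class_four S hS i a b c d
  exact (Dat.mx_map (he j) a b c d).2 ((h j).2.2.resolve_left (fun e => hn ⟨j, e⟩) a b c d)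

end

theorem Class_ls [Infinite I] (N : Type u) [(Class_Lang I).Structure N] (hN : (Class_ofS I N).Mem)
    (A : Set N) : ∃ S : (Class_Lang I).Substructure N, A ⊆ S ∧
      Dat.Str (Class_ofS I S) (Class_ofS I N) S.subtype ∧ #S ≤ #A + #I := by
  have h1 : ∀ x y : N, ∃ p q, (Class_ofS I N).Mx x y p q → (Class_ofS I N).Q x y := fun x y => by
    by_cases h : (Class_ofS I N).Q x y
    · exact ⟨x, x, fun _ => h⟩
    · obtain ⟨p, hp⟩ := not_forall.1 h
      obtain ⟨q, hq⟩ := not_forall.1 hp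
      exact ⟨p, q, fun e => (hq e).elim⟩
  choose p q hpq using h1
  obtain ⟨a, ha⟩ : ∃ a : N, (∃ σ, (Class_ofS I N).R .T σ σ) → (Class_ofS I N).R .T a a := by
    by_cases h : ∃ σ, (Class_ofS I N).R .T σ σ
    · exact h.imp fun _ e _ => e
    · exact hN.1.elim fun a => ⟨a, fun e => (h e).elim⟩
  obtain ⟨C, c1, c2, c3⟩ := Class_closure
    (fun s : Option (Option (FS I)) => s.elim p fun t => t.elim q (Class_ofS I N).F) (insert a A)
  let S : (Class_Lang I).Substructure N := ⟨C, fun {n} s => match n, s with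
    | 2, s => fun v hv => Class_two v ▸ c2 (some (some s)) _ (hv 0) _ (hv 1)
    | 0, s => s.elim
    | 1, s => s.elim
    | _ + 3, s => s.elim⟩
  have he := Class_emb S.subtype
  have a0 : a ∈ S := c1 (Set.mem_insert _ _)
  refine ⟨S, (Set.subset_insert _ _).trans c1, ⟨he, ⟨⟨⟨a, a0⟩⟩, hN.2.1.of_emb he,
    hN.2.2.imp (fun h => ⟨⟨a, a0⟩, (he.R _ _ _).1 (ha h)⟩) fun h x y => (h _ _).of_emb he⟩, hN,
    fun x y _ _ h => hpq _ _ ((Dat.mx_map he x y ⟨p x y, c2 none _ x.2 _ y.2⟩
      ⟨q x y, c2 (some none) _ x.2 _ y.2⟩).2 (h _ _))⟩, c3.trans ?_⟩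
  refine max_le ((aleph0_le_mk I).trans le_add_self) ((add_le_add mk_insert_le Class_FS).trans ?_)
  rw [add_assoc, add_comm 1, add_one_eq (aleph0_le_mk I)]

variable (I) in
/-- The class. -/
def Class_K [Infinite I] : AEC (Class_Lang I) where
  Mem M _ := (Class_ofS I M).Mem
  Str {M N} _ _ f := Dat.Str (Class_ofS I M) (Class_ofS I N) f
  nonempty _ _ h := h.1
  mem_dom _ h := h.dom
  mem_cod _ h := h.cod
  str_equiv e h := by
    have h1 := Class_emb e.toEmbedding
    have h2 := Class_emb e.symm.toEmbedding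
    refine ⟨h1, h, ⟨h.1.map e, h.2.1.of_emb h2, h.2.2.imp (fun ⟨σ, hσ⟩ => ⟨_, (h1.R _ σ σ).2 hσ⟩)
      fun k x y => (k _ _).of_emb h2⟩, fun x y _ _ k => Dat.Q.of_emb h2 ?_⟩
    simpa using k
  str_comp _ _ h h' := h.comp h'
  coherence f g h h' := ⟨Class_emb f, h'.dom, h.dom, fun x y a b c =>
    Dat.Q.of_emb h.emb (h'.good x y a b c)⟩
  chain_union S hS h i := by
    refine ⟨Class_emb _, (h i i le_rfl).dom, Class_mem S hS fun j => (h j j le_rfl).dom,
      fun x y a b c p q => ?_⟩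
    obtain ⟨j, hj, p, q, -, -, rfl, rfl, -, -⟩ := Class_four S hS i p q p q
    exact (Dat.mx_map (Class_emb (Substructure.inclusion (le_iSup S j))) _ _ p q).2
      ((h i j hj).good x y a b c p q)
  chain_smooth S hS W hW h h' := by
    refine ⟨Class_emb _, Class_mem S hS fun j => (h j j le_rfl).dom,
      (h' (Classical.arbitrary _)).cod, fun x y a b c => ?_⟩
    obtain ⟨j, -, x, y, -, -, rfl, rfl, -, -⟩ := Class_four S hS (Classical.arbitrary _) x y x y
    have he := Class_emb (Substructure.inclusion (le_iSup S j))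
    exact (h' j).good x y (a.of_emb he) (b.of_emb he) (c.of_emb he)
  ls := ⟨#I, aleph0_le_mk I, Class_card, Class_ls⟩

theorem exists_AEC (I : Type u) [Infinite I] :
    ∃ (L : FirstOrder.Language.{u, u}) (K : AEC L), K.LS ≤ #I ∧ ∀ c, K.AP c ↔ Dat.APD I c := by
  refine ⟨Class_Lang I, Class_K I, csInf_le' ⟨aleph0_le_mk I, Class_card, Class_ls⟩,
    fun c => ⟨fun h M₀ M₁ M₂ X₀ X₁ X₂ g₁ g₂ s₁ s₂ c₀ c₁ c₂ => ?_,
      fun h M₀ M₁ M₂ _ _ _ g₁ g₂ s₁ s₂ c₀ c₁ c₂ => ?_⟩⟩
  · let _ := Class_toS X₀.F X₀.R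
    let _ := Class_toS X₁.F X₁.R
    let _ := Class_toS X₂.F X₂.R
    obtain ⟨N, _, f₁, f₂, a, b, d, e⟩ := h M₀ M₁ M₂ (Class_ofEmb (f := g₁) s₁.emb)
      (Class_ofEmb (f := g₂) s₂.emb) s₁ s₂ c₀ c₁ c₂
    exact ⟨N, Class_ofS I N, f₁, f₂, a, b, d, fun x => DFunLike.congr_fun e x⟩
  · obtain ⟨N, Y, f₁, f₂, a, b, d, e⟩ := h M₀ M₁ M₂ _ _ _ g₁ g₂ s₁ s₂ c₀ c₁ c₂
    let this := Class_toS Y.F Y.R
    exact ⟨N, this, Class_ofEmb (f := f₁) b.emb, Class_ofEmb (f := f₂) d.emb, a, b, d,
      DFunLike.ext _ _ e⟩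

end Pool.Agent.Lib.MP_ccf8bc_lc.NM
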