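import Mathlib
import Pool.Agent.Lib.MP_ccf8bc_lc.NM.Basic

/-!
Adding a node and a wall.
-/

namespace Pool.Agent.Lib.MP_ccf8bc_lc.NM

open Cardinal Sum Dat

universe u

variable {I M N : Type u}

/-- One more point, the only node. -/
def Flag_X (X : Dat I M) (Tr : M → Prop) (wit : M → M) : Dat I (Option M) where
  F s z z' := match z, z' with
    | some x, some y => some (X.F s x y)
    | none, some a => (match s with
      | .w => some (wit a)
      | _ => none)
    | _, none => none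
  R s z z' := match z, z' with
    | some x, some y => X.R s x y
    | some x, none => (match s with
      | .D => True
      | .E [] => Tr x
      | _ => False)
    | none, none => (match s with
      | .T => True
      | _ => False)
    | none, some _ => False

/-- The list that starts with the wall. -/
def Flag_c (f : ℕ → N) : ℕ → N ⊕ Bool
  | 0 => inr false
  | k + 1 => inl (f k)

open Classical in
/-- Two more points, a node and a wall. -/
noncomputable def Flag_Y (Y : Dat I N) (P Tr : N → Prop) (W : N → N) (r : N) :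
    Dat I (N ⊕ Bool) where
  F s z z' := match z, z' with
    | inl x, inl y => inl (Y.F s x y)
    | inr c, inl y => (match s, c with
      | .w, _ => inl (W y)
      | .l k, true => if P y then inr true else Flag_c (fun j => Y.F (.l j) r y) k
      | _, _ => inr true)
    | inl x, inr c => (match s, c with
      | .l k, true => if Y.R .T x x then Flag_c (fun j => Y.F (.l j) x r) k else inr true
      | _, _ => inr true)
    | inr c, inr c' => (match s, c, c' with
      | .en false, false, false => inl r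
      | _, _, _ => inr true)
  R s z z' := match z, z' with
    | inl x, inl y => Y.R s x y
    | inl x, inr c => (match s, c with
      | .D, _ => P x
      | .E [], _ => Tr x
      | .S, true => Y.R .S x r
      | _, _ => False)
    | inr c, inr c' => (match s, c, c' with
      | .T, true, true => True
      | .S, false, true => True
      | _, _, _ => False)
    | inr _, inl _ => False

section X

variable {X : Dat I M} {Tr : M → Prop} {wit : M → M}

theorem Flag_embX : Emb X (Flag_X X Tr wit) some :=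
  ⟨Option.some_injective _, fun _ _ _ => rfl, fun _ _ _ => Iff.rfl⟩

theorem Flag_nodeX (hK : ∀ x y, X.Q x y) {z : Option M} (h : (Flag_X X Tr wit).R .T z z) :
    z = none := by
  cases z with
  | none => rfl
  | some x => exact absurd h (hK x x).k0.1

theorem Flag_memX (hK : ∀ x y, X.Q x y) : (Flag_X X Tr wit).Mem := by
  have ns : ∀ σ ρ e, (Flag_X X Tr wit).R .T σ σ → (Flag_X X Tr wit).R .T ρ ρ →
      ¬ (Flag_X X Tr wit).Sep e σ ρ := fun σ ρ e a b c => by
    rw [Flag_nodeX hK a, Flag_nodeX hK b] at c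
    exact c Iff.rfl
  refine ⟨⟨none⟩, Tree.intro (fun σ ρ e a b c => absurd c (ns σ ρ e a b))
    (fun σ ρ e _ a b c => absurd c (ns σ ρ e a b)) (fun σ ρ e _ a b c => absurd c (ns σ ρ e a b))
    (fun σ ρ e _ _ a b c => absurd c (ns σ ρ e a b)) fun σ ρ a b => ?_, Or.inl ⟨none, trivial⟩⟩
  exact Set.finite_empty.subset fun e c => ns σ ρ e a b c

theorem Flag_strX (hX : X.Mem) (hK : ∀ x y, X.Q x y)
    (hw : ∀ a, X.R .A a a → X.R .B (wit a) (wit a) ∧ ¬ (Tr (wit a) ↔ X.R (.E []) (wit a) a)) :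
    Dat.Str X (Flag_X X Tr wit) some := by
  refine ⟨Flag_embX, hX, Flag_memX hK, fun x y _ _ h => Q.intro ((k0_map Flag_embX x y).2 h.k0)
    (fun t => ?_) (fun t a => ?_) (fun σ ρ a b => ?_) fun p => ?_⟩
  · cases t with
    | some t => exact (v1_map Flag_embX x y t).2 (h.v1 t)
    | none =>
      exact fun _ _ => ⟨fun _ => trivial, fun a => ⟨(hw x a).2,
        (hom_map Flag_embX (wit x) y).2 ((hK (wit x) y).k0.2.2.1 (hw x a).1)⟩⟩
  · rw [Flag_nodeX hK a]
    exact Or.inl ⟨0, trivial⟩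
  · rw [Flag_nodeX hK a, Flag_nodeX hK b]
    exact Or.inr fun k => Or.inl ⟨k, rfl⟩
  · cases p with
    | some p => exact h.ns p
    | none => exact id

end X

section Y

variable {Y : Dat I N} {P Tr : N → Prop} {W : N → N} {r : N}

theorem Flag_embY : Emb Y (Flag_Y Y P Tr W r) inl :=
  ⟨inl_injective, fun _ _ _ => rfl, fun _ _ _ => Iff.rfl⟩

theorem Flag_nodeY {z : N ⊕ Bool} (h : (Flag_Y Y P Tr W r).R .T z z) :
    z = inr true ∨ ∃ s, Y.R .T s s ∧ z = inl s := by
  rcases z with s | _ | _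
  · exact Or.inr ⟨s, h, rfl⟩
  · exact h.elim
  · exact Or.inl rfl

theorem Flag_l1 {y : N} (h : ¬ P y) (k : ℕ) : (Flag_Y Y P Tr W r).F (.l k) (inr true) (inl y) =
    Flag_c (fun j => Y.F (.l j) r y) k := if_neg h

theorem Flag_l2 {y : N} (h : P y) (k : ℕ) :
    (Flag_Y Y P Tr W r).F (.l k) (inr true) (inl y) = inr true := if_pos h

theorem Flag_l3 {x : N} (h : Y.R .T x x) (k : ℕ) :
    (Flag_Y Y P Tr W r).F (.l k) (inl x) (inr true) = Flag_c (fun j => Y.F (.l j) x r) k :=
  if_pos h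

theorem Flag_l4 {x : N} (h : ¬ Y.R .T x x) (k : ℕ) :
    (Flag_Y Y P Tr W r).F (.l k) (inl x) (inr true) = inr true := if_neg h

/-- The projection of the nodes. -/
def Flag_pr (r : N) : N ⊕ Bool → N
  | inl s => s
  | inr _ => r

theorem Flag_prT (hr : Y.R .T r r) {z : N ⊕ Bool} (h : (Flag_Y Y P Tr W r).R .T z z) :
    Y.R .T (Flag_pr r z) (Flag_pr r z) := by
  rcases Flag_nodeY h with rfl | ⟨s, hs, rfl⟩
  exacts [hr, hs]

theorem Flag_S {z : N ⊕ Bool} (h : (Flag_Y Y P Tr W r).R .T z z) (a : N) :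
    (Flag_Y Y P Tr W r).R .S (inl a) z ↔ Y.R .S a (Flag_pr r z) := by
  rcases Flag_nodeY h with rfl | ⟨s, -, rfl⟩ <;> exact Iff.rfl

theorem Flag_Se (z : N ⊕ Bool) : (Flag_Y Y P Tr W r).R .S (inr false) z ↔ z = inr true := by
  rcases z with s | _ | _
  · exact iff_of_false id (by simp)
  · exact iff_of_false id (by simp)
  · exact iff_of_true trivial rfl

theorem Flag_Sr (z : N ⊕ Bool) : ¬ (Flag_Y Y P Tr W r).R .S (inr true) z := by
  rcases z with s | _ | _ <;> exact id

theorem Flag_sep {z z' : N ⊕ Bool} (h : (Flag_Y Y P Tr W r).R .T z z)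
    (h' : (Flag_Y Y P Tr W r).R .T z' z') (a : N) :
    (Flag_Y Y P Tr W r).Sep (inl a) z z' ↔ Y.Sep a (Flag_pr r z) (Flag_pr r z') := by
  rw [Dat.Sep, Dat.Sep, Flag_S h, Flag_S h']

theorem Flag_sepr (z z' : N ⊕ Bool) : ¬ (Flag_Y Y P Tr W r).Sep (inr true) z z' :=
  fun h => h (iff_of_false (Flag_Sr z) (Flag_Sr z'))

theorem Flag_sepe (z z' : N ⊕ Bool) :
    (Flag_Y Y P Tr W r).Sep (inr false) z z' ↔ ¬ (z = inr true ↔ z' = inr true) := by
  rw [Dat.Sep, Flag_Se, Flag_Se]

theorem Flag_en (b : Bool) : (Flag_Y Y P Tr W r).F (.en b) (inr false) (inr false) =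
    if b = true then inr true else inl r := by
  cases b <;> rfl

theorem Flag_tree (hY : Y.Tree) (hr : Y.R .T r r) (hP : ∀ s, Y.R .T s s → ¬ P s) :
    (Flag_Y Y P Tr W r).Tree := by
  refine Tree.intro (fun σ ρ e a b c => ?_) (fun σ ρ e t a b c => ?_) (fun σ ρ e t a b c => ?_)
    (fun σ ρ e e' t a b c d => ?_) fun σ ρ a b => ?_
  · rcases e with e | _ | _
    · obtain ⟨k, hk⟩ := hY.mem (Flag_prT hr a) (Flag_prT hr b) ((Flag_sep a b e).1 c)
      rcases Flag_nodeY a with rfl | ⟨s, hs, rfl⟩ <;> rcases Flag_nodeY b with rfl | ⟨s', hs', rfl⟩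
      · exact absurd Iff.rfl c
      · exact ⟨k + 1, (Flag_l1 (hP s' hs') _).trans (congrArg inl hk)⟩
      · exact ⟨k + 1, (Flag_l3 hs _).trans (congrArg inl hk)⟩
      · exact ⟨k, congrArg inl hk⟩
    · rw [Flag_sepe] at c
      rcases Flag_nodeY a with rfl | ⟨s, hs, rfl⟩ <;> rcases Flag_nodeY b with rfl | ⟨s', hs', rfl⟩
      · exact absurd Iff.rfl c
      · exact ⟨0, Flag_l1 (hP s' hs') _⟩
      · exact ⟨0, Flag_l3 hs _⟩
      · exact absurd (by simp) c
    · exact absurd c (Flag_sepr _ _)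
  · rcases e with e | _ | _
    · exact hY.enT (Flag_prT hr a) (Flag_prT hr b) ((Flag_sep a b e).1 c) t
    · cases t
      exacts [hr, trivial]
    · exact absurd c (Flag_sepr _ _)
  · rcases e with e | _ | _
    · exact hY.enS (Flag_prT hr a) (Flag_prT hr b) ((Flag_sep a b e).1 c) t
    · rw [Flag_Se, Flag_en]
      cases t <;> simp
    · exact absurd c (Flag_sepr _ _)
  · rcases e' with e' | _ | _
    · rw [Flag_sep a b] at d
      rw [Flag_S a]
      rcases e with e | _ | _
      · exact hY.inter (Flag_prT hr a) (Flag_prT hr b) ((Flag_sep a b e).1 c) d t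
      · have h1 : (Flag_Y Y P Tr W r).R .S (inl e')
            ((Flag_Y Y P Tr W r).F (.en t) (inr false) (inr false)) ↔ Y.R .S e' r := by
          cases t <;> exact Iff.rfl
        rw [h1]
        rw [Flag_sepe] at c
        by_cases h2 : σ = inr true
        · rw [h2]; exact Iff.rfl
        · obtain rfl : ρ = inr true := by_contra fun h3 => c (iff_of_false h2 h3)
          exact (not_not.1 d).symm
      · exact absurd c (Flag_sepr _ _)
    · rcases e with e | _ | _
      · rw [Flag_sepe, not_not] at d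
        rw [Flag_Se, Flag_Se]
        refine iff_of_false (inl_ne_inr) fun h2 => ?_
        rw [h2, d.1 h2] at c
        exact c Iff.rfl
      · exact absurd c d
      · exact absurd c (Flag_sepr _ _)
    · exact iff_of_false (Flag_Sr _) (Flag_Sr _)
  · refine (((hY.fin (Flag_prT hr a) (Flag_prT hr b)).image inl).insert (inr false)).subset ?_
    rintro (e | _ | _) c
    · exact Or.inr ⟨e, (Flag_sep a b e).1 c, rfl⟩
    · exact Or.inl rfl
    · exact absurd c (Flag_sepr _ _)

theorem Flag_strY (hY : Y.Mem) (hr : Y.R .T r r) (hP : ∀ s, Y.R .T s s → ¬ P s)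
    (h1 : ∀ x y, P x → P y → (∀ s, P (Y.F s x y)) ∧
      (Y.R .A x x → ¬ (Tr (W x) ↔ Y.R (.E []) (W x) x) ∧ Y.Hom (W x) y)) :
    Dat.Str Y (Flag_Y Y P Tr W r) inl := by
  have hT : (Flag_Y Y P Tr W r).Tree := Flag_tree hY.2.1 hr hP
  have rT : (Flag_Y Y P Tr W r).R .T (inr true) (inr true) := trivial
  have l0 : ∀ x y, P x → (Flag_Y Y P Tr W r).R .D (inl x)
      ((Flag_Y Y P Tr W r).F (.l 0) (inr true) (inl y)) := fun x y hx => by
    by_cases hy : P y
    · rw [Flag_l2 hy]; exact hx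
    · rw [Flag_l1 hy]; exact hx
  refine ⟨Flag_embY, hY, ⟨⟨inr true⟩, hT, Or.inl ⟨_, rT⟩⟩, fun x y _ _ h =>
    Q.intro ((k0_map Flag_embY x y).2 h.k0) (fun t => ?_) (fun t a => ?_) (fun σ ρ => ?_)
      fun p => ?_⟩
  · cases t with
    | inl t => exact (v1_map Flag_embY x y t).2 (h.v1 t)
    | inr c =>
      exact fun a b => ⟨(h1 x y a b).1, fun d => ⟨((h1 x y a b).2 d).1,
        (hom_map Flag_embY (W x) y).2 ((h1 x y a b).2 d).2⟩⟩
  · rcases Flag_nodeY a with rfl | ⟨s, hs, rfl⟩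
    · by_cases hx : P x
      · exact Or.inl ⟨0, l0 x y hx⟩
      by_cases hy : P y
      · exact Or.inr ⟨0, l0 y x hy⟩
      rcases h.v2 r hr with ⟨k, hk⟩ | ⟨k, hk⟩
      · exact Or.inl ⟨k + 1, by rw [Flag_l1 hy]; exact hk⟩
      · exact Or.inr ⟨k + 1, by rw [Flag_l1 hx]; exact hk⟩
    · exact (v2_map Flag_embY x y s).2 (h.v2 s) a
  · refine (hT.v3_iff _ _ _).2 fun a b => ?_
    rcases Flag_nodeY a with rfl | ⟨s, hs, rfl⟩ <;> rcases Flag_nodeY b with rfl | ⟨s', hs', rfl⟩
    · exact Or.inr fun k => Or.inl ⟨k, rfl⟩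
    · by_cases hx : P x
      · exact Or.inl ⟨inr false, (Flag_sepe _ _).2 (by simp), hx⟩
      rcases (hY.2.1.v3_iff _ _ _).1 (h.v3 r s') hr hs' with ⟨e, e1, e2⟩ | e
      · exact Or.inl ⟨inl e, (Flag_sep a b e).2 e1, e2⟩
      · refine Or.inr fun k => (e k).imp (fun ⟨k', hk⟩ => ⟨k' + 1, ?_⟩) fun c => (Flag_sep a b _).2 c
        exact (Flag_l1 hx _).trans (congrArg inl hk)
    · by_cases hx : P x
      · exact Or.inl ⟨inr false, (Flag_sepe _ _).2 (by simp), hx⟩
      rcases (hY.2.1.v3_iff _ _ _).1 (h.v3 s r) hs hr with ⟨e, e1, e2⟩ | e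
      · exact Or.inl ⟨inl e, (Flag_sep a b e).2 e1, e2⟩
      · refine Or.inr fun k => ?_
        rw [Flag_l1 hx]
        cases k with
        | zero => exact Or.inr ((Flag_sepe _ _).2 (by simp))
        | succ k =>
          exact (e k).imp (fun ⟨k', hk⟩ => ⟨k', congrArg inl hk⟩) fun c => (Flag_sep a b _).2 c
    · exact (hT.v3_iff _ _ _).1 ((v3_map Flag_embY x s s').2 (h.v3 s s')) a b
  · rcases p with p | _ | _
    exacts [h.ns p, id, h.ns r]

end Y

theorem flag_ext {I M : Type u} (X : Dat I M) (hX : X.Mem) (hK : ∀ x y, X.Q x y) (Tr : M → Prop)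
    (hTr : ∀ a, X.R .A a a → ∃ b, X.R .B b b ∧ ¬ (Tr b ↔ X.R (.E []) b a)) :
    ∃ X' : Dat I (Option M), Dat.Str X X' some ∧ X'.R .T none none ∧
      ∀ (N : Type u) (Y : Dat I N) (g : M → N), Dat.Str X Y g → (∃ σ, Y.R .T σ σ) →
        ∃ (Y' : Dat I (N ⊕ Bool)) (k : Option M → N ⊕ Bool),
          Dat.Str Y Y' Sum.inl ∧ Dat.Str X' Y' k ∧ ∀ x, k (some x) = Sum.inl (g x) := by
  choose! wit hw using hTr
  refine ⟨Flag_X X Tr wit, Flag_strX hX hK hw, trivial, fun N Y g hg ⟨r, hr⟩ => ?_⟩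
  have hQ : ∀ x y, Y.Q (g x) (g y) := fun x y => hg.good x y (hK x x) (hK y y) (hK x y)
  have hW : ∀ x, Function.extend g (g ∘ wit) id (g x) = g (wit x) :=
    fun x => hg.emb.inj.extend_apply _ _ x
  have hT : ∀ x, (∃ b, g b = g x ∧ Tr b) ↔ Tr x := fun x =>
    ⟨fun ⟨b, e, h⟩ => hg.emb.inj e ▸ h, fun h => ⟨x, rfl, h⟩⟩
  have hs : Dat.Str Y (Flag_Y Y (· ∈ Set.range g) (fun y => ∃ b, g b = y ∧ Tr b)
      (Function.extend g (g ∘ wit) id) r) inl := by
    refine Flag_strY hg.cod hr ?_ ?_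
    · rintro _ h ⟨x, rfl⟩
      exact (hQ x x).k0.1 h
    · rintro _ _ ⟨x, rfl⟩ ⟨y, rfl⟩
      refine ⟨fun s => ⟨_, (hg.emb.F s x y).symm⟩, fun a => ?_⟩
      rw [hg.emb.R] at a
      rw [hW, hT, hg.emb.R, hom_map hg.emb]
      exact ⟨(hw x a).2, (hK (wit x) y).k0.2.2.1 (hw x a).1⟩
  refine ⟨_, fun z => z.elim (inr true) fun x => inl (g x), hs, ⟨⟨?_, ?_, ?_⟩, Flag_memX hK, hs.cod,
    ?_⟩, fun _ => rfl⟩
  · rintro (_ | x) (_ | y) e
    · rfl
    · exact absurd e inr_ne_inl
    · exact absurd e inl_ne_inr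
    · exact congrArg some (hg.emb.inj (inl_injective e))
  · rintro s (_ | x) (_ | y)
    · rcases s with _ | _ | _ | _ | _ | _ | _ | _ <;> rfl
    · rcases s with _ | _ | _ | _ | _ | k | _
      any_goals rfl
      · exact congrArg inl (hW y)
      · exact Flag_l2 ⟨y, rfl⟩ k
    · rcases s with _ | _ | _ | _ | _ | k | _
      any_goals rfl
      exact Flag_l4 (hQ x x).k0.1 k
    · exact congrArg inl (hg.emb.F s x y)
  · rintro s (_ | x) (_ | y)
    · cases s <;> exact Iff.rfl
    · exact Iff.rfl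
    · rcases s with _ | _ | _ | _ | _ | _ | _ | _ | _
      any_goals exact Iff.rfl
      · exact iff_of_false ((hQ x x).ns r) id
      · exact iff_of_true ⟨x, rfl⟩ trivial
      · exact hT x
    · exact hg.emb.R s x y
  · rintro (_ | x) (_ | y) a b -
    · exact (a.k0.1 trivial).elim
    · exact (a.k0.1 trivial).elim
    · exact (b.k0.1 trivial).elim
    · exact hs.good _ _ (hQ x x) (hQ y y) (hQ x y)

end Pool.Agent.Lib.MP_ccf8bc_lc.NM
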