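import Mathlib
import Pool.Agent.Lib.MP_ccf8bc_lc.NM.Basic

/-!
The equations satisfied by a copy of the full model inside a structure.
-/

set_option maxHeartbeats 400000

namespace Pool.Agent.Lib.MP_ccf8bc_lc.NM

universe u

/-- The sort `A` of the full model over `B₀`. -/
abbrev A0 (I B₀ : Type u) : Type u := B₀ → List I → Prop

/-- The point of `A0` that codes the singleton of `b`. -/
def dl {I B₀ : Type u} (b : B₀) : A0 I B₀ := fun b' _ => b' = b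

/-- `ι` and `π` place the full model over `B₀` inside `Y`. -/
structure IsFull {I B₀ N : Type u} (Y : Dat I N) (ι : A0 I B₀ → N)
    (π : (A0 I B₀ → A0 I B₀) → N) : Prop where
  hA : ∀ a, Y.R .A (ι a) (ι a)
  hB : ∀ b, Y.R .B (ι (dl b)) (ι (dl b))
  hE : ∀ b a, Y.R (.E []) (ι (dl b)) (ι a) ↔ a b []
  hu : ∀ i a, Y.F (.u i) (ι a) (ι a) = ι fun b s => a b (i :: s)
  hnor : ∀ a, Y.F .nor (ι a) (ι a) = ι fun b _ => ∀ i, ¬ a b [i]
  hap : ∀ f a, Y.F .ap (π f) (ι a) = ι (f a)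
  hd : ∀ f f', f ≠ f' → ∃ a, Y.F .d (π f) (π f') = ι a ∧ f a ≠ f' a

theorem IsFull.map {I B₀ N P : Type u} {Y : Dat I N} {Z : Dat I P} {ι : A0 I B₀ → N}
    {π : (A0 I B₀ → A0 I B₀) → N} (h : IsFull Y ι π) {g : N → P} (e : Emb Y Z g) :
    IsFull Z (g ∘ ι) (g ∘ π) where
  hA a := (e.R _ _ _).2 (h.hA a)
  hB b := (e.R _ _ _).2 (h.hB b)
  hE b a := (e.R _ _ _).trans (h.hE b a)
  hu i a := (e.F _ _ _).trans (congrArg g (h.hu i a))
  hnor a := (e.F _ _ _).trans (congrArg g (h.hnor a))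
  hap f a := (e.F _ _ _).trans (congrArg g (h.hap f a))
  hd f f' hf := (h.hd f f' hf).imp fun _ ha => ⟨(e.F _ _ _).trans (congrArg g ha.1), ha.2⟩

end Pool.Agent.Lib.MP_ccf8bc_lc.NM
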