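import Mathlib
import Pool.Agent.Lib.MP_ccf8bc_lc.NM.FullDef

/-!
The full model over a set, and the extension of an unflagged model by one special point.
-/

namespace Pool.Agent.Lib.MP_ccf8bc_lc.NM

open Cardinal

universe u

/-- A structure without nodes, flags and sides is good as soon as `K0` holds. -/
theorem Full_good {I M : Type u} {X : Dat I M} (hT : ∀ x, ¬ X.R .T x x)
    (hD : ∀ x y, ¬ X.R .D x y) (hS : ∀ x y, ¬ X.R .S x y) (h0 : ∀ x y, X.K0 x y) (x y : M) :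
    X.Q x y :=
  Dat.Q.intro (h0 x y) (fun t h => (hD x t h).elim) (fun t h => (hT t h).elim)
    (fun σ _ h => (hT σ h).elim) (hS x)

theorem Full_mem {I M : Type u} {X : Dat I M} (x₀ : M) (h : ∀ x y, X.Q x y) : X.Mem :=
  ⟨⟨x₀⟩, fun σ _ _ _ h1 => ((h σ σ).k0.1 h1).elim, Or.inr h⟩

theorem Full_dl_inj {I B₀ : Type u} : Function.Injective (dl : B₀ → A0 I B₀) := fun b _ h =>
  (congrFun (congrFun h b) []).mp rfl

open Classical in
/-- The functions of the full model. -/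
noncomputable def Full_F {I B₀ : Type u} : FS I → A0 I B₀ ⊕ (A0 I B₀ → A0 I B₀) →
    A0 I B₀ ⊕ (A0 I B₀ → A0 I B₀) → A0 I B₀ ⊕ (A0 I B₀ → A0 I B₀)
  | .u i, .inl a, _ => .inl fun b s => a b (i :: s)
  | .nor, .inl a, _ => .inl fun b _ => ∀ i, ¬ a b [i]
  | .ap, .inr f, .inl a => .inl (f a)
  | .d, .inl a, .inl a' => if h : ∃ b, a b ≠ a' b then .inl (dl h.choose) else .inl a
  | .d, .inr f, .inr f' => if h : ∃ a, f a ≠ f' a then .inl h.choose else .inr f
  | _, x, _ => x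

/-- The relations of the full model. -/
def Full_R {I B₀ : Type u} : RS I → A0 I B₀ ⊕ (A0 I B₀ → A0 I B₀) →
    A0 I B₀ ⊕ (A0 I B₀ → A0 I B₀) → Prop
  | .A, x, _ => ∃ a, x = .inl a
  | .B, x, _ => ∃ b, x = .inl (dl b)
  | .E s, x, y => ∃ b a, x = .inl (dl b) ∧ y = .inl a ∧ a b s
  | _, _, _ => False

theorem Full_E {I B₀ : Type u} (s : List I) (b : B₀) (a : A0 I B₀) :
    Full_R (.E s) (.inl (dl b)) (.inl a) ↔ a b s := by
  constructor
  · rintro ⟨b', a', h1, h2, h3⟩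
    rw [Full_dl_inj (Sum.inl.inj h1), Sum.inl.inj h2]
    exact h3
  · exact fun h => ⟨b, a, rfl, rfl, h⟩

theorem Full_dA {I B₀ : Type u} {a a' : A0 I B₀} (h : a ≠ a') :
    ∃ b, Full_F .d (.inl a) (.inl a') = .inl (dl b) ∧ a b ≠ a' b := by
  have e : ∃ b, a b ≠ a' b := Function.ne_iff.1 h
  exact ⟨e.choose, dif_pos e, e.choose_spec⟩

theorem Full_dP {I B₀ : Type u} {f f' : A0 I B₀ → A0 I B₀} (h : f ≠ f') :
    ∃ a, Full_F .d (.inr f) (.inr f') = .inl a ∧ f a ≠ f' a := by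
  have e : ∃ a, f a ≠ f' a := Function.ne_iff.1 h
  exact ⟨e.choose, dif_pos e, e.choose_spec⟩

theorem Full_k0 {I B₀ : Type u} (x y : A0 I B₀ ⊕ (A0 I B₀ → A0 I B₀)) :
    (⟨Full_F, Full_R⟩ : Dat I _).K0 x y := by
  refine ⟨id, id, ?_, ?_, ?_, fun h => h.elim⟩
  · rintro ⟨b, rfl⟩
    constructor
    · rintro ⟨a, rfl⟩
      exact (Full_E [] b _).trans (forall_congr' fun i =>
        not_congr (Full_E [] b fun b s => a b (i :: s)).symm)
    · rintro ⟨b', rfl⟩
      exact (Full_E [] b _).trans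
        ⟨fun h => congrArg (fun z => Sum.inl (dl z)) h, fun h => Full_dl_inj (Sum.inl.inj h)⟩
  · rintro ⟨a, rfl⟩ ⟨a', rfl⟩ hne
    obtain ⟨b, h1, h2⟩ := Full_dA fun e : a = a' => hne (congrArg _ e)
    obtain ⟨s, hs⟩ := Function.ne_iff.1 h2
    dsimp only
    rw [h1]
    exact ⟨⟨b, rfl⟩, s, fun e => hs (propext (((Full_E s b a).symm.trans e).trans (Full_E s b a')))⟩
  · intro hx hy _ _ hne
    rcases x with a | f
    · exact (hx ⟨a, rfl⟩).elim
    rcases y with a | f'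
    · exact (hy ⟨a, rfl⟩).elim
    obtain ⟨a, h1, h2⟩ := Full_dP fun e : f = f' => hne (congrArg _ e)
    dsimp only
    rw [h1]
    exact ⟨⟨a, rfl⟩, ⟨f a, rfl⟩, fun e => h2 (Sum.inl.inj e)⟩

theorem exists_full (I B₀ : Type u) :
    ∃ X : Dat I (A0 I B₀ ⊕ (A0 I B₀ → A0 I B₀)), X.Mem ∧ (∀ x y, X.Q x y) ∧
      (∀ x, ¬ X.R .Sp x x) ∧ IsFull X Sum.inl Sum.inr := by
  have hQ := Full_good (X := (⟨Full_F, Full_R⟩ : Dat I (A0 I B₀ ⊕ (A0 I B₀ → A0 I B₀))))
    (fun _ => id) (fun _ _ => id) (fun _ _ => id) Full_k0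
  exact ⟨_, Full_mem (.inr id) hQ, hQ, fun _ => id,
    ⟨fun a => ⟨a, rfl⟩, fun b => ⟨b, rfl⟩, fun b a => Full_E [] b a, fun _ _ => rfl, fun _ => rfl,
      fun _ _ => rfl, fun _ _ h => Full_dP h⟩⟩

/-- The extension by one point. -/
def Full_pt {I M : Type u} (X : Dat I M) (c : Prop) : Dat I (Option M) where
  F s x y := match x, y with
    | some x, some y => some (X.F s x y)
    | _, _ => none
  R s x y := match x, y with
    | some x, some y => X.R s x y
    | none, none => s = .Sp ∨ s = .Col ∧ c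
    | _, _ => False

theorem exists_pt {I M : Type u} (X : Dat I M) (hX : X.Mem) (hK : ∀ x y, X.Q x y)
    (hS : ∀ x, ¬ X.R .Sp x x) (c : Prop) :
    ∃ X' : Dat I (Option M), Dat.Str X X' some ∧ X'.R .Sp none none ∧ (X'.R .Col none none ↔ c) := by
  have e : Emb X (Full_pt X c) some :=
    ⟨Option.some_injective M, fun _ _ _ => rfl, fun _ _ _ => Iff.rfl⟩
  have sp : (Full_pt X c).R .Sp none none := Or.inl rfl
  have nA : ¬ (Full_pt X c).R .A none none := by simp [Full_pt]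
  have nB : ¬ (Full_pt X c).R .B none none := by simp [Full_pt]
  have hT : ∀ x, ¬ (Full_pt X c).R .T x x := by
    rintro (_ | x)
    · simp [Full_pt]
    · exact (hK x x).k0.1
  have hD : ∀ x y, ¬ (Full_pt X c).R .D x y := by
    rintro (_ | x) (_ | y)
    · simp [Full_pt]
    · exact id
    · exact id
    · exact (hK x y).k0.2.1
  have hS' : ∀ x y, ¬ (Full_pt X c).R .S x y := by
    rintro (_ | x) (_ | y)
    · simp [Full_pt]
    · exact id
    · exact id
    · exact (hK x x).ns y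
  have h0 : ∀ x y, (Full_pt X c).K0 x y := by
    rintro (_ | x) (_ | y)
    · exact ⟨hT _, hD _ _, fun h => (nB h).elim, fun h => (nA h).elim,
        fun _ _ h => (h sp).elim, fun _ _ => rfl⟩
    · exact ⟨hT _, hD _ _, fun h => (nB h).elim, fun h => (nA h).elim,
        fun _ _ h => (h sp).elim, fun _ h => (hS y h).elim⟩
    · exact ⟨hT _, hD _ _, fun _ => ⟨fun h => (nA h).elim, fun h => (nB h).elim⟩,
        fun _ h => (nA h).elim, fun _ _ _ h => (h sp).elim, fun h => (hS x h).elim⟩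
    · exact (Dat.k0_map e x y).2 (hK x y).k0
  have hQ := Full_good hT hD hS' h0
  exact ⟨Full_pt X c, ⟨e, hX, Full_mem none hQ, fun _ _ _ _ _ => hQ _ _⟩, sp, by simp [Full_pt]⟩

end Pool.Agent.Lib.MP_ccf8bc_lc.NM
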