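import Mathlib
import Pool.Agent.Lib.MP_ccf8bc_lc.NM.FullDef

/-!
A node above a copy of the full model gives a complete nonprincipal ultrafilter.
-/

set_option maxHeartbeats 400000

namespace Pool.Agent.Lib.MP_ccf8bc_lc.NM

open Cardinal

universe u

/-- One step of the diagonal construction. -/
theorem Sound_step {A J : Type u} [Nontrivial A] (hJ : Cardinal.mk J < Cardinal.mk A)
    (DA : A → Prop) (DF : (A → A) → Prop) (h1 : ∃ a, ¬ DA a)
    (hap : ∀ f a, DF f → DA a → DA (f a))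
    (hd : ∀ f f', DF f → DF f' → f ≠ f' → ∃ a, DA a ∧ f a ≠ f' a) (g : J → A × A) :
    ∃ p : A × A, (∀ η, p.1 ≠ (g η).1) ∧
      ∀ f : A → A, (∀ η, f (g η).1 = (g η).2) → f p.1 = p.2 → ¬ DF f := by
  by_cases hc : ∃ c, (∀ η, c ≠ (g η).1) ∧ DA c
  · obtain ⟨c, hc1, hc2⟩ := hc
    obtain ⟨v, hv⟩ := h1
    exact ⟨(c, v), hc1, fun f _ (h2 : f c = v) h3 => hv (h2 ▸ hap f c h3 hc2)⟩
  · obtain ⟨c, hc1⟩ : ∃ c, ∀ η, c ≠ (g η).1 := by
      by_contra hn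
      push Not at hn
      exact hJ.not_ge (Cardinal.mk_le_of_surjective (f := fun η => (g η).1) fun c =>
        (hn c).imp fun _ h => h.symm)
    by_cases hf : ∃ f₀ : A → A, (∀ η, f₀ (g η).1 = (g η).2) ∧ DF f₀
    · obtain ⟨f₀, h2, h3⟩ := hf
      obtain ⟨v, hv⟩ := exists_ne (f₀ c)
      refine ⟨(c, v), hc1, fun f h4 h5 h6 => ?_⟩
      obtain ⟨a, ha1, ha2⟩ := hd f f₀ h6 h3 fun h => hv (h5.symm.trans (congrFun h c))
      refine hc ⟨a, fun η hη => ha2 ?_, ha1⟩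
      rw [hη, h4, h2]
    · exact ⟨(c, c), hc1, fun f h4 _ h6 => hf ⟨f, h4, h6⟩⟩

/-- The diagonal construction along a well order with short initial segments. -/
theorem Sound_diag {A W : Type u} [Nontrivial A] [LinearOrder W] [WellFoundedLT W]
    (hW : ∀ ξ : W, Cardinal.mk (Set.Iio ξ) < Cardinal.mk A)
    (DA : W → A → Prop) (DF : W → (A → A) → Prop) (h1 : ∀ ξ, ∃ a, ¬ DA ξ a)
    (hap : ∀ ξ f a, DF ξ f → DA ξ a → DA ξ (f a))
    (hd : ∀ ξ f f', DF ξ f → DF ξ f' → f ≠ f' → ∃ a, DA ξ a ∧ f a ≠ f' a) :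
    ∃ f : A → A, ∀ ξ, ¬ DF ξ f := by
  choose st hst using fun (ξ : W) (g : Set.Iio ξ → A × A) =>
    Sound_step (hW ξ) (DA ξ) (DF ξ) (h1 ξ) (hap ξ) (hd ξ) g
  let G : W → A × A := (wellFounded_lt (α := W)).fix fun ξ g => st ξ fun η => g η.1 η.2
  have hG : ∀ ξ, G ξ = st ξ fun η => G η.1 := fun ξ => WellFounded.fix_eq _ _ ξ
  have hne : ∀ ξ η, η < ξ → (G ξ).1 ≠ (G η).1 := fun ξ η h => by
    rw [hG ξ]
    exact (hst ξ fun η => G η.1).1 ⟨η, h⟩
  have hinj : Function.Injective fun ξ => (G ξ).1 := fun ξ η h => by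
    rcases lt_trichotomy ξ η with h' | h' | h'
    · exact absurd h.symm (hne η ξ h')
    · exact h'
    · exact absurd h (hne ξ η h')
  have hf : ∀ ξ, Function.extend (fun ξ => (G ξ).1) (fun ξ => (G ξ).2) id (G ξ).1 = (G ξ).2 :=
    fun ξ => hinj.extend_apply _ _ ξ
  refine ⟨Function.extend (fun ξ => (G ξ).1) (fun ξ => (G ξ).2) id, fun ξ => ?_⟩
  refine (hst ξ fun η => G η.1).2 _ (fun η => hf η.1) ?_
  rw [← hG ξ]
  exact hf ξ

/-- A family closed under the joint denial of `I` many sets is a complete ultrafilter. -/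
theorem Sound_ultra {I B : Type u} [Infinite I] (m : Set B → Prop)
    (key : ∀ Z : I → Set B, m {b | ∀ i, b ∉ Z i} ↔ ∀ i, ¬ m (Z i)) :
    ∃ U : Ultrafilter B, (∀ Z, Z ∈ U ↔ m Z) ∧
      ∀ Z : I → Set B, (∀ i, Z i ∈ U) → ⋂ i, Z i ∈ U := by
  classical
  have hc : ∀ Z, m Zᶜ ↔ ¬ m Z := fun Z => by
    have h := key fun _ => Z
    simp only [forall_const] at h
    exact h
  have hi : ∀ Z : I → Set B, m (⋂ i, Z i) ↔ ∀ i, m (Z i) := fun Z => by
    have h := key fun i => (Z i)ᶜ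
    have h2 : {b | ∀ i, b ∉ (Z i)ᶜ} = ⋂ i, Z i := by ext; simp
    rw [h2] at h
    simpa only [hc, not_not] using h
  obtain ⟨i₀, i₁, h01⟩ := exists_pair_ne I
  have h2 : ∀ Z Z', m (Z ∩ Z') ↔ m Z ∧ m Z' := fun Z Z' => by
    have h := hi fun i => if i = i₀ then Z else Z'
    have h3 : (⋂ i, if i = i₀ then Z else Z') = Z ∩ Z' := by
      ext b
      simp only [Set.mem_iInter, Set.mem_inter_iff]
      refine ⟨fun h => ⟨by simpa using h i₀, by simpa [h01.symm] using h i₁⟩, fun h i => ?_⟩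
      split_ifs
      exacts [h.1, h.2]
    rw [h3] at h
    refine h.trans ⟨fun h => ⟨by simpa using h i₀, by simpa [h01.symm] using h i₁⟩,
      fun h i => ?_⟩
    split_ifs
    exacts [h.1, h.2]
  have hup : ∀ Z Z', m Z → Z ⊆ Z' → m Z' := fun Z Z' h hZ =>
    ((h2 Z Z').1 (by rwa [Set.inter_eq_left.2 hZ])).2
  let F : Filter B :=
    { sets := {Z | m Z}
      univ_sets := by
        by_contra h
        exact h (hup _ _ ((hc _).2 h) (Set.subset_univ _))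
      sets_of_superset := fun h hZ => hup _ _ h hZ
      inter_sets := fun h h' => (h2 _ _).2 ⟨h, h'⟩ }
  refine ⟨Ultrafilter.ofComplNotMemIff F fun Z => ?_, fun Z => Iff.rfl, fun Z hZ => (hi Z).2 hZ⟩
  show ¬ m Zᶜ ↔ m Z
  rw [hc, not_not]

theorem sound {I B₀ N : Type u} [Infinite I] [Nonempty B₀] {Y : Dat I N} {ι : A0 I B₀ → N}
    {π : (A0 I B₀ → A0 I B₀) → N} (h : IsFull Y ι π)
    (hQ : ∀ x ∈ Set.range ι ∪ Set.range π, ∀ y ∈ Set.range ι ∪ Set.range π, Y.Q x y)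
    (σ : N) (hσ : Y.R .T σ σ) :
    ∃ U : Ultrafilter B₀, (∀ b, {b} ∉ U) ∧
      ∀ Z : I → Set B₀, (∀ i, Z i ∈ U) → ⋂ i, Z i ∈ U := by
  by_contra hno
  have qaa : ∀ a a', Y.Q (ι a) (ι a') := fun a a' => hQ _ (Or.inl ⟨a, rfl⟩) _ (Or.inl ⟨a', rfl⟩)
  have qfa : ∀ f a, Y.Q (π f) (ι a) := fun f a => hQ _ (Or.inr ⟨f, rfl⟩) _ (Or.inl ⟨a, rfl⟩)
  have qff : ∀ f f', Y.Q (π f) (π f') := fun f f' => hQ _ (Or.inr ⟨f, rfl⟩) _ (Or.inr ⟨f', rfl⟩)
  have S1 : ∀ t, ∃ a, ¬ Y.R .D (ι a) t := by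
    intro t
    by_contra hn
    push Not at hn
    let c : Set B₀ → A0 I B₀ := fun Z b _ => b ∈ Z
    let X : Set B₀ := {b | Y.R (.E []) (ι (dl b)) t}
    have hv := fun a => ((qaa (c X) a).v1 t (hn _) (hn _)).2 (h.hA _)
    obtain ⟨U, hU, hU'⟩ := Sound_ultra (I := I)
      (fun Z => Y.R (.E []) (Y.F .w t (ι (c X))) (ι (c Z))) fun Z => by
        have h1 := (hv fun b s => match s with | [] => False | i :: _ => b ∈ Z i).2.1 (h.hA _)
        simp only [h.hnor, h.hu] at h1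
        exact h1
    refine hno ⟨U, fun b hb => ?_, hU'⟩
    have h1 : Y.F .w t (ι (c X)) = ι (dl b) := ((hv (dl b)).2.2 (h.hB b)).1 ((hU _).1 hb)
    have h2 := (hv (dl b)).1
    rw [h1] at h2
    exact h2 (h.hE b (c X)).symm
  have S2 : ∀ t : ℕ → N, ¬ ∀ a, ∃ k, Y.R .D (ι a) (t k) := by
    intro t ht
    choose a ha using fun k => S1 (t k)
    let j := Infinite.natEmbedding I
    obtain ⟨k, hk⟩ := ht fun b s => match s with | [] => False | i :: s' => ∃ k, j k = i ∧ a k b s'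
    have h1 := ((qaa _ _).v1 (t k) hk hk).1 (.u (j k))
    rw [h.hu] at h1
    refine ha k ?_
    convert h1 using 2
    funext b s
    simp
  have : Infinite (A0 I B₀) := Infinite.of_injective (fun (i : I) (_ : B₀) (s : List I) => s = [i])
    fun i i' hi => by
      obtain ⟨b⟩ := ‹Nonempty B₀›
      have h1 : ([i] = [i]) = ([i] = [i']) := congrFun (congrFun hi b) [i]
      simpa using h1
  obtain ⟨e⟩ : Nonempty ((Cardinal.mk (A0 I B₀)).ord.ToType ≃ A0 I B₀ × ℕ) := by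
    rw [← Cardinal.eq, Cardinal.mk_ord_toType, Cardinal.mk_prod, Cardinal.lift_uzero,
      Cardinal.mk_nat, Cardinal.lift_aleph0, Cardinal.mul_aleph0_eq (Cardinal.aleph0_le_mk _)]
  obtain ⟨f, hf⟩ := Sound_diag (A := A0 I B₀) (W := (Cardinal.mk (A0 I B₀)).ord.ToType)
    (fun ξ => (Cardinal.mk_Iio_lt ξ (by simp)).trans_eq (Cardinal.mk_ord_toType _))
    (fun ξ a => Y.R .D (ι a) (Y.F (.l (e ξ).2) σ (ι (e ξ).1)))
    (fun ξ f => Y.R .D (π f) (Y.F (.l (e ξ).2) σ (ι (e ξ).1))) (fun ξ => S1 _)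
    (fun ξ f a h1 h2 => h.hap f a ▸ ((qfa f a).v1 _ h1 h2).1 .ap)
    (fun ξ f f' h1 h2 h3 => by
      obtain ⟨a, ha1, ha2⟩ := h.hd f f' h3
      exact ⟨a, ha1 ▸ ((qff f f').v1 _ h1 h2).1 .d, ha2⟩)
  refine S2 (fun k => Y.F (.l k) σ (π f)) fun a => ((qfa f a).v2 σ hσ).resolve_left ?_
  rintro ⟨k, hk⟩
  refine hf (e.symm (a, k)) ?_
  rw [e.apply_symm_apply]
  exact hk

end Pool.Agent.Lib.MP_ccf8bc_lc.NM
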