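import Mathlib
import Pool.Agent.Lib.MP_ccf8bc_lc.NM.Amal
import Pool.Agent.Lib.MP_ccf8bc_lc.NM.Class
import Pool.Agent.Lib.MP_ccf8bc_lc.NM.Flag
import Pool.Agent.Lib.MP_ccf8bc_lc.NM.Full
import Pool.Agent.Lib.MP_ccf8bc_lc.NM.Size
import Pool.Agent.Lib.MP_ccf8bc_lc.NM.Sound

/-!
With no measurable cardinal above `θ` there is an abstract elementary class with
Loewenheim-Skolem number at most `θ` that has amalgamation in every strong limit cardinal above `θ`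
and fails it in `2 ^ 2 ^ l` for every `l ≥ θ`.
-/

set_option maxHeartbeats 400000

namespace Pool.Agent.Lib.MP_ccf8bc_lc.NM

open Cardinal

universe u

theorem apd {I : Type u} [Infinite I] {ν : Cardinal.{u}} (hν : Cardinal.IsStrongLimit ν)
    (hI : #I < ν) : Dat.APD I ν := by
  intro M₀ M₁ M₂ X₀ X₁ X₂ g₁ g₂ h₁ h₂ c₀ c₁ c₂
  have hinf : ℵ₀ ≤ ν := (Cardinal.aleph0_le_mk I).trans hI.le
  have fin : ∀ {N : Type u} {Y : Dat I N} {f : M₁ → N}, Dat.Str X₁ Y f → #N ≤ ν → #N = ν :=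
    fun h h' => le_antisymm h' (c₁ ▸ Cardinal.mk_le_of_injective h.emb.inj)
  rcases h₁.dom.2.2 with hT | hK
  · obtain ⟨N, Y, f₁, f₂, hN, s₁, s₂, hc⟩ := amal h₁ h₂ hT
    exact ⟨N, Y, f₁, f₂, fin s₁ (hN.trans (Cardinal.add_le_of_le hinf c₁.le c₂.le)), s₁, s₂, hc⟩
  have ext : ∀ (M : Type u) (X : Dat I M), X.Mem → #M = ν →
      ∃ (N : Type u) (Y : Dat I N) (f : M → N), #N = ν ∧ Dat.Str X Y f ∧ ∃ σ, Y.R .T σ σ := by
    intro M X hX hM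
    rcases hX.2.2 with hT | hK
    · exact ⟨M, X, id, hM, Dat.Str.refl hX, hT⟩
    · obtain ⟨Tr, hTr⟩ := exists_trace X hK (hM ▸ hν) (hM ▸ hI)
      obtain ⟨X', s, t, -⟩ := flag_ext X hX hK Tr hTr
      exact ⟨Option M, X', some, by rw [Cardinal.mk_option, hM, Cardinal.add_one_eq hinf], s, _, t⟩
  obtain ⟨Tr, hTr⟩ := exists_trace X₀ hK (c₀ ▸ hν) (c₀ ▸ hI)
  obtain ⟨X', -, t, H⟩ := flag_ext X₀ h₁.dom hK Tr hTr
  obtain ⟨N₁, Y₁, f₁, d₁, s₁, t₁⟩ := ext M₁ X₁ h₁.cod c₁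
  obtain ⟨N₂, Y₂, f₂, d₂, s₂, t₂⟩ := ext M₂ X₂ h₂.cod c₂
  obtain ⟨Z₁, k₁, a₁, b₁, e₁⟩ := H N₁ Y₁ _ (h₁.comp s₁) t₁
  obtain ⟨Z₂, k₂, a₂, b₂, e₂⟩ := H N₂ Y₂ _ (h₂.comp s₂) t₂
  obtain ⟨N, Y, p₁, p₂, hN, u₁, u₂, hc⟩ := amal b₁ b₂ ⟨_, t⟩
  have hb : ∀ {P : Type u}, #P = ν → #(P ⊕ Bool) ≤ ν := fun h => by
    simp only [Cardinal.mk_sum, Cardinal.lift_uzero, h, Cardinal.mk_fintype, Fintype.card_bool,
      Cardinal.lift_natCast]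
    exact Cardinal.add_le_of_le hinf le_rfl ((Cardinal.natCast_lt_aleph0 (n := 2)).le.trans hinf)
  refine ⟨N, Y, _, _, fin ((s₁.comp a₁).comp u₁)
    (hN.trans (Cardinal.add_le_of_le hinf (hb d₁) (hb d₂))), (s₁.comp a₁).comp u₁,
    (s₂.comp a₂).comp u₂, fun x => ?_⟩
  have := hc (some x)
  rw [e₁, e₂] at this
  exact this

theorem not_apd {I : Type u} [Infinite I] (hU : ∀ κ, #I < κ → ¬ Measurable' κ)
    (B₀ : Type u) [Nonempty B₀] : ¬ Dat.APD I #(A0 I B₀ ⊕ (A0 I B₀ → A0 I B₀)) := by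
  intro h
  obtain ⟨X, hX, hK, hS, hF⟩ := exists_full I B₀
  obtain ⟨X₁, s₁, p₁, c₁⟩ := exists_pt X hX hK hS True
  obtain ⟨X₂, s₂, p₂, c₂⟩ := exists_pt X hX hK hS False
  have : Infinite (A0 I B₀) := Infinite.of_injective
    (fun (s : List I) (_ : B₀) (s' : List I) => s' = s) fun s s' h =>
      (congrFun (congrFun h (Classical.arbitrary B₀)) s).mp rfl
  have hc : #(Option (A0 I B₀ ⊕ (A0 I B₀ → A0 I B₀))) = #(A0 I B₀ ⊕ (A0 I B₀ → A0 I B₀)) := by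
    rw [Cardinal.mk_option, Cardinal.add_one_eq (Cardinal.aleph0_le_mk _)]
  obtain ⟨N, Y, f₁, f₂, -, u₁, u₂, -⟩ := h _ _ _ X X₁ X₂ some some s₁ s₂ rfl hc hc
  rcases u₁.cod.2.2 with ⟨σ, hσ⟩ | hY
  · have s := s₁.comp u₁
    obtain ⟨U, h1, h2⟩ := sound (hF.map s.emb) (by
      rintro _ (⟨a, rfl⟩ | ⟨a, rfl⟩) _ (⟨b, rfl⟩ | ⟨b, rfl⟩) <;>
        exact s.good _ _ (hK _ _) (hK _ _) (hK _ _)) σ hσ
    obtain ⟨κ, h3, h4⟩ := measurable_of_ultrafilter U h1 h2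
    exact hU κ h3 h4
  · have e := (hY (f₁ none) (f₂ none)).k0.2.2.2.2.2 ((u₁.emb.R _ _ _).2 p₁) ((u₂.emb.R _ _ _).2 p₂)
    have := (u₁.emb.R .Col none none).2 (c₁.2 trivial)
    rw [e] at this
    exact c₂.1 ((u₂.emb.R _ _ _).1 this)

theorem counterexample (θ : Cardinal.{u}) (hθ : ℵ₀ ≤ θ) (hU : ∀ κ, θ < κ → ¬ Measurable' κ) :
    ∃ (L : FirstOrder.Language.{u, u}) (K : AEC L), K.LS ≤ θ ∧
      (∀ ν, θ < ν → Cardinal.IsStrongLimit ν → K.AP ν) ∧ ∀ l, θ ≤ l → ¬ K.AP (2 ^ (2 ^ l : Cardinal.{u})) := by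
  obtain ⟨I, rfl⟩ : ∃ I : Type u, #I = θ := ⟨θ.out, Cardinal.mk_out θ⟩
  have : Infinite I := Cardinal.infinite_iff.2 hθ
  obtain ⟨L, K, hLS, hK⟩ := exists_AEC I
  refine ⟨L, K, hLS, fun ν h1 h2 => (hK ν).2 (apd h2 h1), fun l hl => ?_⟩
  obtain ⟨B₀, rfl⟩ : ∃ B₀ : Type u, #B₀ = l := ⟨l.out, Cardinal.mk_out l⟩
  have hB : ℵ₀ ≤ #B₀ := hθ.trans hl
  have : Infinite B₀ := Cardinal.infinite_iff.2 hB
  have hA : #(A0 I B₀) = 2 ^ #B₀ := by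
    simp only [A0, Cardinal.mk_pi, Cardinal.prod_const, Cardinal.mk_Prop, Cardinal.lift_id,
      Cardinal.mk_list_eq_mk, Cardinal.lift_uzero, Cardinal.lift_ofNat]
    rw [← Cardinal.power_mul, Cardinal.mul_eq_right hB hl (Cardinal.mk_ne_zero I)]
  have h2 : ℵ₀ ≤ (2 ^ #B₀ : Cardinal.{u}) := hB.trans (Cardinal.cantor _).le
  have hc : #(A0 I B₀ ⊕ (A0 I B₀ → A0 I B₀)) = 2 ^ (2 ^ #B₀ : Cardinal.{u}) := by
    rw [Cardinal.mk_sum, Cardinal.lift_id, Cardinal.lift_id, ← Cardinal.power_def (A0 I B₀), hA,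
      Cardinal.power_self_eq h2,
      Cardinal.add_eq_right (h2.trans (Cardinal.cantor _).le) (Cardinal.cantor _).le]
  rw [hK, ← hc]
  exact not_apd hU B₀

end Pool.Agent.Lib.MP_ccf8bc_lc.NM
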